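import Mathlib

/-!
# Newforms of any weight and the Hasse-Weil L-functions that are products of their L-functions: definitions
-/

open UpperHalfPlane MatrixGroups CongruenceSubgroup Polynomial

namespace Pool.Agent.Q28.HW

/-- The `n`-th Fourier coefficient `a(n)` of `f(τ) = ∑ a(n) e^(2πinτ)`. -/
noncomputable def a {N k : ℕ} (f : CuspForm (Gamma1 N : Subgroup (GL (Fin 2) ℝ)) (k : ℤ)) (n : ℕ) : ℂ :=
  (qExpansion 1 f).coeff n

/-- `f` is a newform of weight `k`, level `N`, nebentypus `ψ`; the properties that are used: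
`f(γτ) = ψ(d) (cτ+d)^k f(τ)` for `γ = (a b; c d)` in `Γ₀(N)`, `a(1) = 1`, the Hecke relations
`a(mn) = a(m) a(n)` for coprime `m`, `n` and `a(p^(j+2)) = a(p) a(p^(j+1)) - ψ(p) p^(k-1) a(p^j)`,
`conj a(n) = conj ψ(n) a(n)` for `n` prime to `N`, and the Fricke involution maps `f` to a multiple
of the form with the conjugate coefficients,
`f(-1/(Nτ)) = η (√N τ/i)^k conj (f(-conj τ))` with `|η| = 1`. -/
structure IsNewform (N k : ℕ) (ψ : DirichletCharacter ℂ N)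
    (f : CuspForm (Gamma1 N : Subgroup (GL (Fin 2) ℝ)) (k : ℤ)) : Prop where
  neb : ∀ γ : SL(2, ℤ), γ ∈ Gamma0 N → ∀ τ : ℍ,
    f (γ • τ) = ψ ((γ 1 1 : ℤ) : ZMod N) * denom γ τ ^ k * f τ
  one : a f 1 = 1
  mul : ∀ m n : ℕ, Nat.Coprime m n → a f (m * n) = a f m * a f n
  pow : ∀ p j : ℕ, p.Prime → a f (p ^ (j + 2)) = a f p * a f (p ^ (j + 1)) -
    ψ (p : ZMod N) * (p : ℂ) ^ (k - 1) * a f (p ^ j)
  conj : ∀ n : ℕ, Nat.Coprime n N → (starRingEnd ℂ) (a f n) =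
    (starRingEnd ℂ) (ψ (n : ZMod N)) * a f n
  fricke : ∃ η : ℂ, ‖η‖ = 1 ∧ ∀ τ τ' τc : ℍ, (τ' : ℂ) * ((N : ℂ) * (τ : ℂ)) = -1 →
    (τc : ℂ) = -(starRingEnd ℂ) (τ : ℂ) →
    f τ' = η * (((Real.sqrt N : ℝ) : ℂ) * (τ : ℂ) / Complex.I) ^ k * (starRingEnd ℂ) (f τc)

end Pool.Agent.Q28.HW
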