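import Pool.Agent.Q28.HW.Ld

/-!
# Everything for the L-function of one newform

Adapted from `Pool.Agent.Q28.AR.Dens` (weight one).
-/

set_option autoImplicit false

namespace Pool.Agent.Q28.HW

open UpperHalfPlane hiding I
open MatrixGroups CongruenceSubgroup Filter Topology Complex
open Pool.Agent.Y671.GL
open Pool.Agent.Y24.GL (LFn Mol ZF)
open scoped ComplexConjugate NumberField

/-! ### the conjugate L-function -/

theorem GG_conj (k : ℕ) (N : ℝ) (s : ℂ) : W388.GG (k : ℤ) N 1 (conj s) = conj (W388.GG (k : ℤ) N 1 s) := by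
  unfold W388.GG
  have hb : (0 : ℝ) ≤ Real.sqrt N * 1 / (2 * Real.pi) := by positivity
  have harg : ((Real.sqrt N * 1 / (2 * Real.pi) : ℝ) : ℂ).arg ≠ Real.pi := by
    rw [Complex.arg_ofReal_of_nonneg hb]
    exact Real.pi_ne_zero.symm
  rw [map_mul, Complex.cpow_conj _ _ harg, Complex.conj_ofReal, ← Complex.Gamma_conj]
  congr 2
  rw [map_add, map_div₀, map_sub, map_one, Complex.conj_ofNat]
  congr 3
  push_cast
  exact (Complex.conj_natCast k).symm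

theorem fe2_conj {k : ℕ} {N : ℝ} {F : ℂ → ℂ} (h : W388.FE2 (k : ℤ) N 1 F) :
    W388.FE2 (k : ℤ) N 1 (fun s => conj (F (conj s))) where
  diff := by
    intro z
    have := (h.diff (conj z)).conj_conj
    rwa [Complex.conj_conj] at this
  fe := by
    obtain ⟨w, hw, hfe⟩ := h.fe
    refine ⟨conj w, by rw [Complex.norm_conj, hw], fun s hs => ?_⟩
    have h1 := congrArg conj (hfe (conj s) (by simpa using hs))
    rw [Complex.conj_conj, map_mul, ← GG_conj k N, Complex.conj_conj, map_mul, Complex.conj_conj] at h1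
    rw [h1, map_mul (starRingEnd ℂ) (W388.GG (k : ℤ) N 1 (1 - conj s)), ← GG_conj k N, map_sub, map_one,
      Complex.conj_conj, Complex.conj_conj]
  vert := by
    intro a b
    obtain ⟨C, hC⟩ := h.vert a b
    refine ⟨C, fun s h1 h2 h3 => ?_⟩
    have h4 := hC (conj s) (by simpa using h1) (by simpa using h2) (by simpa using h3)
    rw [GG_conj k N] at h4
    rw [norm_mul, Complex.norm_conj] at h4 ⊢
    exact h4

section one

variable {N k : ℕ} [NeZero N] {ψ : DirichletCharacter ℂ N}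
  {f : CuspForm (Gamma1 N : Subgroup (GL (Fin 2) ℝ)) (k : ℤ)}

theorem gro_up (hk : 1 ≤ k) {F : ℂ → ℂ} (hFE : W388.FE2 (k : ℤ) N 1 F) {K : ℝ}
    (hFB : ∀ s : ℂ, 3 / 2 ≤ s.re → ‖F s‖ ≤ K) :
    ∃ A : ℝ, ∀ s : ℂ, 1 / 16 ≤ s.re → 1 ≤ s.im → ‖F s‖ ≤ A * s.im ^ A := by
  have hN1 : (1 : ℝ) ≤ N := by exact_mod_cast Nat.one_le_iff_ne_zero.2 (NeZero.ne N)
  obtain ⟨A, hA⟩ : ∃ A : ℝ, A = 2 + 2 * (max 1 K * N) * (((((k : ℤ) : ℝ) - 1) / 2) + 6) ^ 2 := ⟨_, rfl⟩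
  refine ⟨A, fun s h1 h3 => ?_⟩
  have h5 := Pool.Agent.W820.TW.F_growth (k := (k : ℤ)) (N := N) (Q := 1) (B := max 1 K) (by exact_mod_cast hk)
    hN1 le_rfl (le_max_left _ _) hFE (fun s hs => (hFB s hs).trans (le_max_right _ _)) (A := A) (le_of_eq hA.symm)
    s h1 h3
  rwa [one_mul] at h5

theorem lfn (hk : 1 ≤ k) (hf : IsNewform N k ψ f) (hs : Split ψ f) {F : ℂ → ℂ}
    (hFE : W388.FE2 (k : ℤ) N 1 F) (hF : IsL (lm f) F) : LFn F where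
  diff := hF.diff
  low := by
    obtain ⟨c, K, hc, -, h⟩ := Pool.Agent.Y671.GL.rgt_of (frm hk hf hs) hF (ε := 1) one_pos
    exact ⟨c, hc, fun z hz => (h z (by linarith)).1⟩
  ne := fun z hz h0 => by
    obtain ⟨c, K, hc, -, h⟩ := Pool.Agent.Y671.GL.rgt_of (frm hk hf hs) hF (ε := z.re - 1) (by linarith)
    have := (h z (by linarith)).1
    rw [h0, norm_zero] at this
    linarith
  gro := fun A => by
    obtain ⟨c1, K1, -, hK1, h⟩ := Pool.Agent.Y671.GL.rgt_of (frm hk hf hs) hF (ε := 1 / 2) (by norm_num)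
    obtain ⟨a, ha⟩ := gro_up hk hFE (K := K1) fun s hs => (h s (by linarith)).2.1
    obtain ⟨a', ha'⟩ := gro_up hk (fe2_conj hFE) (K := K1) fun s hs => by
      rw [Complex.norm_conj]
      exact (h (conj s) (by simp; linarith)).2.1
    have hK : IsCompact (Set.Icc (1 / 4) A ×ℂ Set.Icc (-1) 1) := isCompact_Icc.reProdIm isCompact_Icc
    obtain ⟨M, hM⟩ := hK.exists_bound_of_continuousOn hF.diff.continuous.continuousOn
    have key : ∀ (b y : ℝ), 1 ≤ y → b * y ^ b ≤ |b| * (1 + y) ^ ⌈|b|⌉₊ := by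
      intro b y hy
      have h5 : y ^ b ≤ (1 + y) ^ ⌈|b|⌉₊ := by
        calc y ^ b ≤ y ^ (⌈|b|⌉₊ : ℝ) := by
              apply Real.rpow_le_rpow_of_exponent_le hy
              exact (le_abs_self b).trans (Nat.le_ceil _)
          _ = y ^ ⌈|b|⌉₊ := Real.rpow_natCast _ _
          _ ≤ _ := by gcongr; linarith
      calc b * y ^ b ≤ |b| * y ^ b := by
            apply mul_le_mul_of_nonneg_right (le_abs_self b)
            positivity
        _ ≤ |b| * (1 + y) ^ ⌈|b|⌉₊ := by gcongr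
    refine ⟨|a| + |a'| + |M| + 1, ⌈|a|⌉₊ + ⌈|a'|⌉₊, by positivity, ?_⟩
    intro z h1 h2
    have hy0 := abs_nonneg z.im
    have hP : (1 : ℝ) ≤ (1 + |z.im|) ^ (⌈|a|⌉₊ + ⌈|a'|⌉₊) := one_le_pow₀ (by linarith)
    have hP1 : (1 + |z.im|) ^ ⌈|a|⌉₊ ≤ (1 + |z.im|) ^ (⌈|a|⌉₊ + ⌈|a'|⌉₊) :=
      pow_le_pow_right₀ (by linarith) (Nat.le_add_right _ _)
    have hP2 : (1 + |z.im|) ^ ⌈|a'|⌉₊ ≤ (1 + |z.im|) ^ (⌈|a|⌉₊ + ⌈|a'|⌉₊) :=
      pow_le_pow_right₀ (by linarith) (Nat.le_add_left _ _)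
    have hM0 := abs_nonneg M
    have ha0 := abs_nonneg a
    have ha0' := abs_nonneg a'
    rcases le_or_gt 1 z.im with h3 | h3
    · have h4 := (ha z (by linarith) h3).trans (key a z.im h3)
      have h4' : z.im = |z.im| := (abs_of_pos (by linarith)).symm
      rw [h4'] at h4
      have h5 : |a| * (1 + |z.im|) ^ ⌈|a|⌉₊ ≤ |a| * (1 + |z.im|) ^ (⌈|a|⌉₊ + ⌈|a'|⌉₊) := by gcongr
      nlinarith
    · rcases le_or_gt z.im (-1) with h4 | h4
      · have h5 := ha' (conj z) (by simp; linarith) (by simp; linarith)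
        rw [Complex.norm_conj, Complex.conj_conj] at h5
        have h6 := h5.trans (key a' (conj z).im (by simp; linarith))
        have h7 : (conj z).im = |z.im| := by
          rw [Complex.conj_im, abs_of_neg (by linarith)]
        rw [h7] at h6
        have h8 : |a'| * (1 + |z.im|) ^ ⌈|a'|⌉₊ ≤ |a'| * (1 + |z.im|) ^ (⌈|a|⌉₊ + ⌈|a'|⌉₊) := by gcongr
        nlinarith
      · have h5 := hM z ⟨⟨h1, h2⟩, ⟨h4.le, h3.le⟩⟩
        have h6 := le_abs_self M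
        nlinarith

/-- everything for one form -/
theorem one_all (hk : 1 ≤ k) (hf : IsNewform N k ψ f) (hs : Split ψ f) : ∃ (c : ℝ) (u v : ℂ) (X X0 F : ℂ → ℂ),
    W388.FE2 (k : ℤ) N 1 F ∧ IsL (lm f) F ∧ LData k c u X F ∧ v ≠ 0 ∧
      (∀ z : ℂ, (1 / 2 < z.re ∨ z.im ≠ 0) → X z = v * comp k N F (1 / 2 + z)) ∧
      (∃ cc : ℕ → ℂ, Pool.Agent.W355.UN.RawL (gl k) 0 N (lm f) cc X0) ∧
      (∀ z : ℂ, X z = v / κ₀ k * X0 (1 / 2 + z)) ∧
      (∃ H : ℂ → ℂ, GG 1 H X F) ∧ (∀ s : ℂ, X s = 0 → |s.re| ≤ 1 / 2) ∧ (∃ z, X z ≠ 0) ∧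
      ∀ a : ℝ, a < 1 → ∃ C : ℝ, 0 < C ∧ ∀ d T : ℝ, 0 ≤ d → 2 ≤ T →
      ∀ S : Finset ℂ, (∀ z ∈ S, z ∈ Pool.Agent.Q9.RH.SX X d T) →
        ∑ z ∈ S, (analyticOrderNatAt X z : ℝ) ≤ C * T ^ (1 - a * d) * Real.log T := by
  obtain ⟨F, hFE, hF⟩ := exists_L hk hf hs
  obtain ⟨c, u, v, X, X0, hD, hv, hX, hraw, hX0⟩ := ldata hk hf hs hFE hF
  have hfrm := frm hk hf hs
  have hcg := cg_of hfrm hF hD
  obtain ⟨h1, h2⟩ := Pool.Agent.Y693.GL.strip_of hk hfrm hF hD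
  refine ⟨c, u, v, X, X0, F, hFE, hF, hD, hv, hX, hraw, hX0,
    ⟨_, hcg, goodX_of hfrm hF hcg.cf, topL_of hfrm hF hcg.cf⟩, h1, h2, ?_⟩
  exact fun a ha => Pool.Agent.Q9.RH.off_ld hk hD (lfn hk hf hs hFE hF) h1
    (fun κ h3 h4 => Pool.Agent.Y24.GL.mol hfrm hF (by linarith) h4.le) ha

/-- the Euler product -/
theorem euler_one (hk : 1 ≤ k) (hf : IsNewform N k ψ f) (hs : Split ψ f) {F : ℂ → ℂ} (hF : IsL (lm f) F) {s : ℂ}
    (hs1 : 1 < s.re) :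
    HasProd (fun p : Nat.Primes => (1 - lm f p * ((p : ℕ) : ℂ) ^ (-s) +
      ψ ((p : ℕ) : ZMod N) * (((p : ℕ) : ℂ) ^ (-s)) ^ 2)⁻¹) (F s) := by
  obtain ⟨-, -, -, h4⟩ := Pool.Agent.Y771.GL.mf k N _ _ (frm hk hf hs)
  have hsum : Summable (fun n : ℕ => ‖lm f n * (n : ℂ) ^ (-s)‖) := by
    refine (h4 s.re hs1).1.of_nonneg_of_le (fun n => norm_nonneg _) fun n => ?_
    rcases Nat.eq_zero_or_pos n with rfl | hn
    · rw [lm_zero]
      simp
    · rw [norm_mul, Complex.norm_natCast_cpow_of_pos hn, neg_re]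
  have hmul : ∀ {m n : ℕ}, Nat.Coprime m n → lm f (m * n) * ((m * n : ℕ) : ℂ) ^ (-s) =
      lm f m * (m : ℂ) ^ (-s) * (lm f n * (n : ℂ) ^ (-s)) := by
    intro m n hmn
    rw [lm_mul hf m n hmn, Nat.cast_mul, Complex.natCast_mul_natCast_cpow]
    ring
  have h := EulerProduct.eulerProduct_hasProd (f := fun n : ℕ => lm f n * (n : ℂ) ^ (-s))
    (by rw [lm_one hf]; simp) hmul hsum (by rw [lm_zero]; simp)
  rw [← hF.ser s hs1] at h
  refine h.congr_fun fun p => ?_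
  have hp := p.2
  obtain ⟨x, hx⟩ : ∃ x : ℂ, x = ((p : ℕ) : ℂ) ^ (-s) := ⟨_, rfl⟩
  have hb : ∀ e : ℕ, lm f ((p : ℕ) ^ e) * (((p : ℕ) ^ e : ℕ) : ℂ) ^ (-s) = lm f ((p : ℕ) ^ e) * x ^ e := by
    intro e
    congr 1
    rw [hx, Nat.cast_pow, ← Complex.natCast_cpow_natCast_mul, mul_comm, ← Complex.cpow_nat_mul, mul_comm]
  have hsm : Summable (fun e : ℕ => lm f ((p : ℕ) ^ e) * x ^ e) := by
    have h1 : Summable (fun n : ℕ => lm f n * (n : ℂ) ^ (-s)) := hsum.of_norm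
    have h2 := h1.comp_injective (Nat.pow_right_injective hp.two_le)
    refine h2.congr fun e => ?_
    exact hb e
  have hsm1 : Summable (fun e : ℕ => lm f ((p : ℕ) ^ (e + 1)) * x ^ (e + 1)) := (summable_nat_add_iff 1).2 hsm
  obtain ⟨S, hS⟩ : ∃ S : ℂ, S = ∑' e : ℕ, lm f ((p : ℕ) ^ e) * x ^ e := ⟨_, rfl⟩
  have e1 : S = 1 + ∑' e : ℕ, lm f ((p : ℕ) ^ (e + 1)) * x ^ (e + 1) := by
    rw [hS, hsm.tsum_eq_zero_add, pow_zero, lm_one hf, pow_zero, mul_one]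
  have e2 : ∑' e : ℕ, lm f ((p : ℕ) ^ (e + 1)) * x ^ (e + 1) =
      lm f p * x + ∑' e : ℕ, lm f ((p : ℕ) ^ (e + 2)) * x ^ (e + 2) := by
    rw [hsm1.tsum_eq_zero_add, zero_add, pow_one, pow_one]
  have e3 : ∑' e : ℕ, lm f ((p : ℕ) ^ (e + 2)) * x ^ (e + 2) =
      lm f p * x * (∑' e : ℕ, lm f ((p : ℕ) ^ (e + 1)) * x ^ (e + 1)) - ψ ((p : ℕ) : ZMod N) * x ^ 2 * S := by
    rw [hS, ← tsum_mul_left, ← tsum_mul_left, ← Summable.tsum_sub (hsm1.mul_left _) (hsm.mul_left _)]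
    refine tsum_congr fun e => ?_
    rw [lm_pow hk hf p e hp]
    ring
  have e4 : S * (1 - lm f p * x + ψ ((p : ℕ) : ZMod N) * x ^ 2) = 1 := by
    have e5 : ∑' e : ℕ, lm f ((p : ℕ) ^ (e + 1)) * x ^ (e + 1) = S - 1 := by rw [e1]; ring
    rw [e5] at e3 e2
    rw [e3] at e2
    linear_combination e2
  have e6 : ∑' e : ℕ, lm f ((p : ℕ) ^ e) * (((p : ℕ) ^ e : ℕ) : ℂ) ^ (-s) = S := by
    rw [hS]
    exact tsum_congr hb
  rw [← hx, e6]
  exact (eq_inv_of_mul_eq_one_left e4).symm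

end one

end Pool.Agent.Q28.HW
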