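import Pool.Agent.TH839.UH.Fin2
import Pool.Agent.Q28.AR.Fam

/-!
# The statements on the heat flow with any comparison of the conductors

Adapted from `Pool.Agent.TH839.UH.Fin2` (`flow_of`, with the constant 4).
-/

set_option autoImplicit false

open Complex Filter Topology NumberField Set
open scoped ComplexConjugate

namespace Pool.Agent.Q28.HW

open Pool.Agent.W355.UN
open Pool.Agent.W169.HF (heat db_all)
open Pool.Agent.TH839.UH (Flow lD deriv_shift rh_down)

theorem flow_ofR {C0 R : ℝ} (hC0 : 0 < C0) (hR1 : 1 ≤ R) {m : ℕ} {B : ℝ → ℝ} {N θ : ℝ} {μ : Fin m → ℂ}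
    {X L Λ : ℂ → ℂ} {c : ℂ} {d : ℕ} {A : ℝ}
    (H : ∀ (t : ℝ) (n : ℕ) (s : ℂ), 0 ≤ t →
      C0 * (m + Real.log (W355.UN.cond N μ s.im)) ≤
        n + t * (m + Real.log (W355.UN.cond N μ s.im)) ^ 2 →
      iteratedDeriv n (heat t X) s = 0 → s.re = 1 / 2 ∧ iteratedDeriv (n + 1) (heat t X) s ≠ 0)
    (hul : UL m B N θ μ X L) (hθ : θ ≤ 1) (hc0 : c ≠ 0) (hX : ∀ z, X z = c * Λ (z + 1 / 2))
    (hA : 1 ≤ A)
    (hcmp : ∀ y, 1 ≤ lD d A y ∧ lD d A y ≤ m + Real.log (W355.UN.cond N μ y) ∧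
      m + Real.log (W355.UN.cond N μ y) ≤ R * lD d A y) :
    Flow (R * C0 + (R * C0) ^ 2) d A Λ := by
  obtain ⟨D, hD⟩ : ∃ D : ℝ, D = R * C0 := ⟨_, rfl⟩
  have hDp : 0 < D := by rw [hD]; positivity
  rw [← hD]
  obtain ⟨C, hCd⟩ : ∃ C : ℝ, C = D + D ^ 2 := ⟨_, rfl⟩
  rw [← hCd]
  have hC4 : D ≤ C := by rw [hCd]; nlinarith
  have hdiff : ∀ t : ℝ, 0 ≤ t → Differentiable ℂ (heat t X) := fun t ht =>
    (db_all _ _ hul.cl hul.nontriv t ht).2.slow.1
  have hder := fun (t : ℝ) (ht : 0 ≤ t) (n : ℕ) (s : ℂ) => deriv_shift hX hc0 (hdiff t ht) n s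
  have hz : ∀ (t : ℝ), 0 ≤ t → ∀ (n : ℕ) (s : ℂ), iteratedDeriv n (heat t Λ) s = 0 →
      iteratedDeriv n (heat t X) (s - 1 / 2) = 0 := by
    intro t ht n s hs
    rw [hder t ht] at hs
    exact (mul_eq_zero.1 hs).resolve_left (inv_ne_zero hc0)
  have him : ∀ s : ℂ, (s - 1 / 2).im = s.im := fun s => by simp
  have hre : ∀ s : ℂ, (s - 1 / 2).re = s.re - 1 / 2 := fun s => by simp
  have key : ∀ (n : ℕ) (t : ℝ) (s : ℂ), 0 ≤ t → D * lD d A s.im ≤ n + t * lD d A s.im ^ 2 →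
      iteratedDeriv n (heat t Λ) s = 0 → s.re = 1 ∧ iteratedDeriv (n + 1) (heat t Λ) s ≠ 0 := by
    intro n t s ht hl hs
    obtain ⟨l1, l2, l3⟩ := hcmp s.im
    obtain ⟨r1, r2⟩ := H t n (s - 1 / 2) ht (by
      rw [him]
      have h1 : lD d A s.im ^ 2 ≤ (m + Real.log (W355.UN.cond N μ s.im)) ^ 2 := by
        gcongr
      have h2 : t * lD d A s.im ^ 2 ≤ t * (m + Real.log (W355.UN.cond N μ s.im)) ^ 2 := by
        gcongr
      have h3 : C0 * (m + Real.log (W355.UN.cond N μ s.im)) ≤ C0 * (R * lD d A s.im) := by gcongr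
      have h4 : C0 * (R * lD d A s.im) = D * lD d A s.im := by rw [hD]; ring
      linarith) (hz t ht n s hs)
    refine ⟨?_, ?_⟩
    · rw [hre] at r1
      linarith
    · rw [hder t ht]
      exact mul_ne_zero (inv_ne_zero hc0) r2
  have hl0 : ∀ y : ℝ, d + Real.log A ≤ lD d A y := by
    intro y
    have hA0 : 0 < A := by linarith
    unfold lD
    have : Real.log A ≤ Real.log (A * (1 + |y|) ^ (2 * d)) := by
      apply Real.log_le_log hA0
      have h1 : (1 : ℝ) ≤ (1 + |y|) ^ (2 * d) := one_le_pow₀ (by linarith [abs_nonneg y])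
      nlinarith
    linarith
  refine ⟨?_, ?_, ?_, ?_⟩
  · intro n t s ht hl hs
    obtain ⟨l1, -, -⟩ := hcmp s.im
    refine key n t s ht ?_ hs
    have : D * lD d A s.im ≤ C * lD d A s.im := by gcongr
    linarith
  · intro n t ht hnt s hs
    obtain ⟨l1, -, -⟩ := hcmp s.im
    refine key n t s ht ?_ hs
    obtain ⟨l, hl⟩ : ∃ l : ℝ, l = lD d A s.im := ⟨_, rfl⟩
    rw [← hl] at l1 ⊢
    have h1 : (D / 2) ^ 2 ≤ n * t := by
      rw [hCd] at hnt
      nlinarith
    have h2 : (0 : ℝ) ≤ n := Nat.cast_nonneg n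
    have h3 : 0 ≤ t * l ^ 2 := by positivity
    have h4 : (D * l) ^ 2 ≤ (n + t * l ^ 2) ^ 2 := by
      have e1 : (D * l) ^ 2 = 4 * (D / 2) ^ 2 * l ^ 2 := by ring
      have e2 : (n + t * l ^ 2) ^ 2 = (n - t * l ^ 2) ^ 2 + 4 * (n * t) * l ^ 2 := by ring
      rw [e1, e2]
      have h5 : 4 * (D / 2) ^ 2 * l ^ 2 ≤ 4 * (n * t) * l ^ 2 := by gcongr
      nlinarith [sq_nonneg (n - t * l ^ 2)]
    exact (sq_le_sq₀ (by positivity) (by positivity)).1 h4
  · intro n t ht hnt s hs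
    obtain ⟨l1, -, -⟩ := hcmp s.im
    refine key n t s ht ?_ hs
    have h1 := hl0 s.im
    have h2 : C ≤ t * lD d A s.im := hnt.trans (mul_le_mul_of_nonneg_left h1 ht)
    have h3 : C * lD d A s.im ≤ t * lD d A s.im * lD d A s.im := by gcongr
    have h4 : (0 : ℝ) ≤ n := Nat.cast_nonneg n
    have h5 : D * lD d A s.im ≤ C * lD d A s.im := by gcongr
    nlinarith
  · constructor
    · intro hR n t s ht _ hs
      have hR' : ∀ z : ℂ, X z = 0 → z.re = 1 / 2 := by
        intro z hz0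
        rw [hX] at hz0
        have h1 := hR _ ((mul_eq_zero.1 hz0).resolve_left hc0)
        have e : (z + 1 / 2).re = z.re + 1 / 2 := by simp
        rw [e] at h1
        linarith
      have h1 := rh_down Pool.Agent.TH194.UH.comm hul hθ hR' ht.le n (hz t ht.le n s hs)
      rw [hre] at h1
      linarith
    · intro hsm s hs
      have h1 := (W355.UN.rh_iff hul (T := 1) one_pos).2 (by
        intro t ht _ z hz0
        have e : iteratedDeriv 0 (heat t Λ) (z + 1 / 2) = 0 := by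
          rw [hder t ht.le, add_sub_cancel_right, iteratedDeriv_zero, hz0, mul_zero]
        have e2 : (z + 1 / 2).re = z.re + 1 / 2 := by simp
        rcases lt_or_ge (((0 : ℕ) : ℝ) + t * lD d A (z + 1 / 2).im ^ 2) (C * lD d A (z + 1 / 2).im)
          with h2 | h2
        · have h3 := hsm 0 t (z + 1 / 2) ht h2 e
          rw [e2] at h3
          linarith
        · obtain ⟨l1, -, -⟩ := hcmp (z + 1 / 2).im
          have h3 := (key 0 t (z + 1 / 2) ht.le (by
            have : D * lD d A (z + 1 / 2).im ≤ C * lD d A (z + 1 / 2).im := by gcongr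
            linarith) e).1
          rw [e2] at h3
          linarith) (s - 1 / 2) (by rw [hX, sub_add_cancel, hs, mul_zero])
      rw [hre] at h1
      linarith

end Pool.Agent.Q28.HW
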