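import Pool.Agent.Q28.HW.Dens
import Pool.Agent.Q28.HW.Flw

/-!
# Products of L-functions of newforms of any weights

Adapted from `Pool.Agent.Q28.AR.Fam` (weight one).
-/

set_option autoImplicit false

namespace Pool.Agent.Q28.HW

open UpperHalfPlane hiding I
open MatrixGroups CongruenceSubgroup Filter Topology Complex
open Pool.Agent.Y671.GL
open Pool.Agent.W355.UN (Pk pk_raw pk_list cser acond RawL)
open Pool.Agent.TH839.UH (Flow lD)
open Pool.Agent.W169.HF (heat)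
open Pool.Agent.Y693.GL (GY gy_one gy_prod low_of huge_of heat_tr)
open Pool.Agent.Q28.AR (Core)
open scoped ComplexConjugate

theorem log_cmp (y r : ℝ) (hr : 0 ≤ r) : Real.log (1 + |y|) ≤ Real.log (1 + ‖(y : ℂ) * I + (r : ℂ)‖) ∧
    Real.log (1 + ‖(y : ℂ) * I + (r : ℂ)‖) ≤ Real.log (1 + |y|) + Real.log (1 + r) := by
  have hy := abs_nonneg y
  have h1 : |y| ≤ ‖(y : ℂ) * I + (r : ℂ)‖ := by
    have := Complex.abs_im_le_norm ((y : ℂ) * I + (r : ℂ))
    simpa using this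
  have h2 : ‖(y : ℂ) * I + (r : ℂ)‖ ≤ |y| + r := by
    refine (norm_add_le _ _).trans ?_
    rw [Complex.norm_real, Real.norm_of_nonneg hr]
    simp
  refine ⟨Real.log_le_log (by linarith) (by linarith), ?_⟩
  rw [← Real.log_mul (by positivity) (by positivity)]
  refine Real.log_le_log (by linarith) ?_
  nlinarith

/-- comparison of conductors -/
theorem cond_cmp {m : ℕ} (hm : 1 ≤ m) {N k : Fin m → ℕ} (hN : ∀ i, 1 ≤ N i) (hk : ∀ i, 1 ≤ k i) : ∃ R : ℝ, 1 ≤ R ∧
    ∀ y : ℝ, 1 ≤ lD m ((∏ i, N i : ℕ) : ℝ) y ∧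
    lD m ((∏ i, N i : ℕ) : ℝ) y ≤ ((2 * m : ℕ) : ℝ) + Real.log (∏ i, acond (N i) (gl (k i)) y) ∧
    ((2 * m : ℕ) : ℝ) + Real.log (∏ i, acond (N i) (gl (k i)) y) ≤ R * lD m ((∏ i, N i : ℕ) : ℝ) y := by
  have hm1 : (1 : ℝ) ≤ m := by exact_mod_cast hm
  have hA1 : (1 : ℝ) ≤ ((∏ i, N i : ℕ) : ℝ) := by
    exact_mod_cast Finset.one_le_prod' fun i _ => hN i
  have hA0 : (0 : ℝ) < ((∏ i, N i : ℕ) : ℝ) := by linarith
  have hk0 : ∀ i, (1 : ℝ) ≤ k i := fun i => by exact_mod_cast hk i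
  obtain ⟨S, hS⟩ : ∃ S : ℝ, S = ∑ i, (Real.log (1 + ((k i : ℝ) - 1) / 2) + Real.log (1 + ((k i : ℝ) + 1) / 2)) :=
    ⟨_, rfl⟩
  have hS0 : 0 ≤ S := by
    rw [hS]
    refine Finset.sum_nonneg fun i _ => ?_
    have := hk0 i
    exact add_nonneg (Real.log_nonneg (by linarith)) (Real.log_nonneg (by linarith))
  refine ⟨2 + S, by linarith, fun y => ?_⟩
  have hy := abs_nonneg y
  obtain ⟨lA, hlA⟩ : ∃ lA : ℝ, lA = Real.log ((∏ i, N i : ℕ) : ℝ) := ⟨_, rfl⟩
  have hlA0 : 0 ≤ lA := by rw [hlA]; exact Real.log_nonneg hA1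
  obtain ⟨ly, hly⟩ : ∃ ly : ℝ, ly = Real.log (1 + |y|) := ⟨_, rfl⟩
  have hly0 : 0 ≤ ly := by rw [hly]; exact Real.log_nonneg (by linarith)
  have e1 : lD m ((∏ i, N i : ℕ) : ℝ) y = m + (lA + 2 * m * ly) := by
    unfold lD
    rw [Real.log_mul hA0.ne' (by positivity), Real.log_pow, ← hlA, ← hly]
    push_cast
    ring
  obtain ⟨q, hq⟩ : ∃ q : Fin m → ℝ, q = fun i => Real.log (1 + ‖(y : ℂ) * I + ((((k i : ℝ) - 1) / 2 : ℝ) : ℂ)‖) +
    Real.log (1 + ‖(y : ℂ) * I + ((((k i : ℝ) + 1) / 2 : ℝ) : ℂ)‖) := ⟨_, rfl⟩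
  have e2 : Real.log (∏ i, acond (N i) (gl (k i)) y) = lA + ∑ i, q i := by
    have h1 : ∀ i, acond (N i) (gl (k i)) y = (N i : ℝ) *
        ((1 + ‖(y : ℂ) * I + ((((k i : ℝ) - 1) / 2 : ℝ) : ℂ)‖) *
          (1 + ‖(y : ℂ) * I + ((((k i : ℝ) + 1) / 2 : ℝ) : ℂ)‖)) := by
      intro i
      unfold acond gl
      simp only [List.map_cons, List.map_nil, List.prod_cons, List.prod_nil, mul_one]
    simp_rw [h1]
    rw [Finset.prod_mul_distrib, ← Nat.cast_prod, Real.log_mul hA0.ne' (by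
      exact Finset.prod_ne_zero_iff.2 fun i _ => by positivity), Real.log_prod (by
      intro i _
      positivity), ← hlA]
    congr 1
    refine Finset.sum_congr rfl fun i _ => ?_
    rw [Real.log_mul (by positivity) (by positivity), hq]
  have h3 : 2 * m * ly ≤ ∑ i, q i := by
    calc 2 * m * ly = ∑ _i : Fin m, 2 * ly := by
          rw [Finset.sum_const, Finset.card_univ, Fintype.card_fin, nsmul_eq_mul]
          ring
      _ ≤ _ := by
        refine Finset.sum_le_sum fun i _ => ?_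
        have h4 := hk0 i
        have h5 := (log_cmp y (((k i : ℝ) - 1) / 2) (by linarith)).1
        have h6 := (log_cmp y (((k i : ℝ) + 1) / 2) (by linarith)).1
        rw [hq, hly]
        beta_reduce
        linarith
  have h4 : ∑ i, q i ≤ 2 * m * ly + S := by
    calc ∑ i, q i ≤ ∑ i : Fin m, (2 * ly +
          (Real.log (1 + ((k i : ℝ) - 1) / 2) + Real.log (1 + ((k i : ℝ) + 1) / 2))) := by
          refine Finset.sum_le_sum fun i _ => ?_
          have h4 := hk0 i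
          have h5 := (log_cmp y (((k i : ℝ) - 1) / 2) (by linarith)).2
          have h6 := (log_cmp y (((k i : ℝ) + 1) / 2) (by linarith)).2
          rw [hq, hly]
          beta_reduce
          linarith
      _ = _ := by
        rw [Finset.sum_add_distrib, ← hS, Finset.sum_const, Finset.card_univ, Fintype.card_fin, nsmul_eq_mul]
        ring
  rw [e1, e2]
  push_cast
  have h5 : 0 ≤ (m : ℝ) * ly := mul_nonneg (by linarith) hly0
  refine ⟨by nlinarith, by linarith, ?_⟩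
  have h6 : S ≤ S * (m + (lA + 2 * m * ly)) := by
    have : 1 ≤ (m : ℝ) + (lA + 2 * m * ly) := by nlinarith
    nlinarith
  nlinarith

section fam

variable {m : ℕ} {N k : Fin m → ℕ} [∀ i, NeZero (N i)] {ψ : (i : Fin m) → DirichletCharacter ℂ (N i)}
  {f : (i : Fin m) → CuspForm (Gamma1 (N i) : Subgroup (GL (Fin 2) ℝ)) (k i : ℤ)}

/-- **the core theorem** -/
theorem core (hm : 1 ≤ m) (hk : ∀ i, 1 ≤ k i) (hf : ∀ i, IsNewform (N i) (k i) (ψ i) (f i))
    (hs : ∀ i, Split (ψ i) (f i)) :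
    ∃ (F : Fin m → ℂ → ℂ) (Λ H X Z : ℂ → ℂ) (v : ℂ), (∀ i, IsL (lm (f i)) (F i)) ∧
      (∀ s : ℂ, 1 < s.re → Λ s = ∏ i, comp (k i) (N i) (F i) s) ∧
      Core m ((∏ i, N i : ℕ) : ℝ) Λ H X Z v := by
  classical
  have hall := fun i => one_all (hk i) (hf i) (hs i)
  choose c u v X X0 F hFE hF hD hv hX hraw hX0 hG hst hne hoff using hall
  choose H hGG using hG
  choose cc hcc using hraw
  have hXd : ∀ i, Differentiable ℂ (X i) := fun i => (hD i).diff
  have hN1 : ∀ i, 1 ≤ N i := fun i => Nat.one_le_iff_ne_zero.2 (NeZero.ne (N i))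
  obtain ⟨Λ, hΛ⟩ : ∃ Λ : ℂ → ℂ, Λ = fun s => ∏ i, X0 i s / κ₀ (k i) := ⟨_, rfl⟩
  have hpk := fun i => pk_raw (hcc i)
  have hX0d : ∀ i, Differentiable ℂ (X0 i) := fun i => (hpk i).diff
  have hΛd : Differentiable ℂ Λ := by
    rw [hΛ]
    exact Differentiable.fun_finsetProd (𝕜 := ℂ) (u := Finset.univ) (f := fun i s => X0 i s / κ₀ (k i))
      fun i _ => (hX0d i).div_const _
  have hcomp : ∀ (i : Fin m) (s : ℂ), 1 < s.re → X0 i s / κ₀ (k i) = comp (k i) (N i) (F i) s := by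
    intro i s hs
    have h1 := hX i (s - 1 / 2) (Or.inl (by simp; linarith))
    have h2 := hX0 i (s - 1 / 2)
    have e : (1 / 2 : ℂ) + (s - 1 / 2) = s := by ring
    rw [e] at h1 h2
    rw [h1] at h2
    have h3 : v i * comp (k i) (N i) (F i) s = v i * (X0 i s / κ₀ (k i)) := by rw [h2]; ring
    exact (mul_left_cancel₀ (hv i) h3).symm
  have huniv : (Finset.univ : Finset (Fin m)).Nonempty := ⟨⟨0, hm⟩, Finset.mem_univ _⟩
  have hgg := Pool.Agent.Q9.RH.gg_prod (Finset.univ : Finset (Fin m)) huniv H X F fun i _ => hGG i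
  have hgy := gy_prod (Finset.univ : Finset (Fin m)) huniv H X F fun i _ => gy_one (hGG i)
  rw [Finset.card_univ, Fintype.card_fin] at hgg hgy
  refine ⟨F, Λ, _, _, _, ∏ i, v i, hF, fun s hs => ?_,
    hΛd, ?_, hgg, hgy, ?_, Finset.prod_ne_zero_iff.2 fun i _ => hv i, ?_, ?_, ?_⟩
  · rw [hΛ]
    exact Finset.prod_congr rfl fun i _ => hcomp i s hs
  · have hfe := fun i => (hpk i).fe
    choose w hw hfe using hfe
    refine ⟨∏ i, w i * (conj (κ₀ (k i)) / κ₀ (k i)), ?_, fun s => ?_⟩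
    · rw [norm_prod]
      refine Finset.prod_eq_one fun i _ => ?_
      rw [norm_mul, hw i, norm_div, Complex.norm_conj, div_self (norm_ne_zero_iff.2 (κ₀_ne _)), one_mul]
    · rw [hΛ]
      show ∏ i, X0 i (1 - s) / κ₀ (k i) = (∏ i, w i * (conj (κ₀ (k i)) / κ₀ (k i))) *
        conj (∏ i, X0 i (conj s) / κ₀ (k i))
      rw [map_prod, ← Finset.prod_mul_distrib]
      refine Finset.prod_congr rfl fun i _ => ?_
      rw [hfe, map_div₀]
      have h1 : conj (κ₀ (k i)) ≠ 0 := (map_ne_zero _).2 (κ₀_ne _)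
      have h2 := κ₀_ne (k i)
      field_simp
  · intro s hs
    obtain ⟨i, -, hi⟩ := Finset.prod_eq_zero_iff.1 hs
    exact hst i s hi
  · intro z
    rw [hΛ]
    show ∏ i, X i z = (∏ i, v i) * ∏ i, X0 i (1 / 2 + z) / κ₀ (k i)
    rw [← Finset.prod_mul_distrib]
    refine Finset.prod_congr rfl fun i _ => ?_
    rw [hX0 i z]
    ring
  · intro a ha
    exact Pool.Agent.Q9.RH.off_prod X hXd hst fun i => hoff i a ha
  · -- the flow
    obtain ⟨C0, hC0, Hm⟩ := Pool.Agent.TH839.UH.main_all (Pool.Agent.W355.UN.Bst_nonneg 1)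
    have hl : List.finRange m ≠ [] := by
      intro h0
      have := congrArg List.length h0
      rw [List.length_finRange] at this
      simp at this
      omega
    have hpk2 : ∀ i, Pk 2 (N i) (acond (N i) (gl (k i))) (cser 0 (N i) (gl (k i)) (lm (f i))) (X0 i) := hpk
    obtain ⟨Y, hY⟩ := pk_list (fun _ : Fin m => 2) (fun i => (N i : ℝ)) (fun i => acond (N i) (gl (k i)))
      (fun i => cser 0 (N i) (gl (k i)) (lm (f i))) (fun i => ⟨X0 i, hpk2 i⟩) (List.finRange m) hl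
    have hYd := hY.diff
    have hκ : (∏ i, κ₀ (k i)) ≠ 0 := Finset.prod_ne_zero_iff.2 fun i _ => κ₀_ne _
    have hYe : Y = fun s => (∏ i, κ₀ (k i)) * Λ s := by
      obtain ⟨μ, L, ul, ec, σ, hσ⟩ := hY
      have hσi := fun i => (hpk i).choose_spec.choose_spec.2.2
      choose τ hτ using hσi
      refine Pk.uniq (G := fun s => ∏ i, cser 0 (N i) (gl (k i)) (lm (f i)) s) (hΛd.const_mul _) hYd
        ⟨∑ i, |τ i|, fun s hs => ?_⟩ ⟨σ, fun s hs => ?_⟩
      · show (∏ i, κ₀ (k i)) * Λ s = _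
        rw [hΛ, ← Finset.prod_mul_distrib]
        refine Finset.prod_congr rfl fun i _ => ?_
        rw [mul_div_cancel₀ _ (κ₀_ne _)]
        refine hτ i s (le_trans ?_ hs)
        exact (le_abs_self _).trans
          (Finset.single_le_sum (f := fun i => |τ i|) (fun _ _ => abs_nonneg _) (Finset.mem_univ i))
      · rw [hσ s hs]
        show ((List.finRange m).map fun i => cser 0 (N i) (gl (k i)) (lm (f i)) s).prod = _
        rw [← List.ofFn_eq_map, List.prod_ofFn]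
    obtain ⟨μ, L, ul, ec, -⟩ := hY
    have hdeg : ((List.finRange m).map fun _ : Fin m => 2).sum = 2 * m := by
      rw [List.map_const', List.length_finRange, List.sum_replicate, smul_eq_mul, mul_comm]
    obtain ⟨R, hR1, hRc⟩ := cond_cmp hm hN1 hk
    refine ⟨_, ?_, flow_ofR (C0 := C0) (R := R) (c := ∏ i, κ₀ (k i)) hC0 hR1 (Hm _ _ _ _ _ _ ul zero_le_one) ul
      zero_le_one hκ (fun z => ?_) ?_ (fun y => ?_)⟩
    · positivity
    · rw [hYe]
      show (∏ i, κ₀ (k i)) * Λ z = (∏ i, κ₀ (k i)) * Λ (z + 1 / 2 - 1 / 2)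
      rw [add_sub_cancel_right]
    · exact_mod_cast Finset.one_le_prod' fun i _ => hN1 i
    · have h1 := hRc y
      rw [ec y, hdeg]
      have e : ((List.finRange m).map fun i => acond (N i) (gl (k i)) y).prod = ∏ i, acond (N i) (gl (k i)) y := by
        rw [← List.ofFn_eq_map, List.prod_ofFn]
      beta_reduce
      rw [e]
      exact h1

end fam

end Pool.Agent.Q28.HW
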