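import Pool.Agent.Q28.HW.Shift

/-!
# The theorems for Hasse-Weil L-functions
-/

set_option autoImplicit false

namespace Pool.Agent.Q28.HW

open Filter Topology Complex
open Pool.Agent.Y671.GL (ZD ED ZH EH nu)
open Pool.Agent.Q28.AR (Core OffL)
open Pool.Agent.W169.HF (heat)
open scoped ComplexConjugate

/-- The zeros of `Λ` with imaginary part in `(0, T]` and distance at least `δ` from the line `Re s = x`. -/
def OffZ (x : ℝ) (Λ : ℂ → ℂ) (δ T : ℝ) : Set ℂ := {s | Λ s = 0 ∧ δ ≤ |s.re - x| ∧ 0 < s.im ∧ s.im ≤ T}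

/-- The zeros of the `n`-th derivative of `Λ` with imaginary part in `(0, T]`. -/
def ZerD (Λ : ℂ → ℂ) (n : ℕ) (T : ℝ) : Set ℂ := {s | iteratedDeriv n Λ s = 0 ∧ 0 < s.im ∧ s.im ≤ T}

/-- Those of them which are off the line `Re s = x` or multiple. -/
def ExcD (x : ℝ) (Λ : ℂ → ℂ) (n : ℕ) (T : ℝ) : Set ℂ :=
  {s | s ∈ ZerD Λ n T ∧ (s.re ≠ x ∨ iteratedDeriv (n + 1) Λ s = 0)}

/-- The zeros of `Λ_t` with `T < Im s ≤ 2T`. -/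
def ZerH (Λ : ℂ → ℂ) (t T : ℝ) : Set ℂ := {s | heat t Λ s = 0 ∧ T < s.im ∧ s.im ≤ 2 * T}

/-- Those of them which are off the line `Re s = x` or multiple. -/
def ExcH (x : ℝ) (Λ : ℂ → ℂ) (t T : ℝ) : Set ℂ := {s | s ∈ ZerH Λ t T ∧ (s.re ≠ x ∨ deriv (heat t Λ) s = 0)}

section

variable {m : ℕ} {A : ℝ} {Λ Λ0 H X Z : ℂ → ℂ} {v c : ℂ}

theorem re_shift (a : ℝ) (s : ℂ) : (s - (a : ℂ)).re = s.re - a := by simp

theorem im_shift (a : ℝ) (s : ℂ) : (s - (a : ℂ)).im = s.im := by simp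

theorem off_of (hm : 1 ≤ m) (h : Core m A Λ0 H X Z v) (hc : c ≠ 0) (a : ℝ)
    (hΛ : ∀ s, Λ s = c * Λ0 (s - (a : ℂ))) :
    ∀ b : ℝ, b < 1 → ∃ C : ℝ, 0 < C ∧ ∀ δ T : ℝ, 0 ≤ δ → 2 ≤ T →
      (OffZ (1 / 2 + a) Λ δ T).Finite ∧
        (num Λ (OffZ (1 / 2 + a) Λ δ T) : ℝ) ≤ C * T ^ (1 - b * δ) * Real.log T := by
  intro b hb
  obtain ⟨C, hC, h1⟩ := h.density hm b hb
  obtain rfl : Λ = fun s => c * Λ0 (s - (a : ℂ)) := funext hΛ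
  refine ⟨C, hC, fun δ T hδ hT => ?_⟩
  have himg : OffZ (1 / 2 + a) (fun s => c * Λ0 (s - (a : ℂ))) δ T = (fun z => z + (a : ℂ)) '' OffL Λ0 δ T := by
    refine image_eq fun s => ?_
    show (c * Λ0 (s - a) = 0 ∧ δ ≤ |s.re - (1 / 2 + a)| ∧ 0 < s.im ∧ s.im ≤ T) ↔
      (Λ0 (s - a) = 0 ∧ δ ≤ |(s - a : ℂ).re - 1 / 2| ∧ 0 < (s - a : ℂ).im ∧ (s - a : ℂ).im ≤ T)
    rw [re_shift, im_shift, mul_eq_zero, or_iff_right hc]
    have : s.re - a - 1 / 2 = s.re - (1 / 2 + a) := by ring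
    rw [this]
  rw [himg, num_shift Λ0 hc]
  exact ⟨(h1 δ T hδ hT).1.image _, (h1 δ T hδ hT).2⟩

theorem der_of (hm : 1 ≤ m) (hA : 1 ≤ A) (h : Core m A Λ0 H X Z v) (hc : c ≠ 0) (a : ℝ)
    (hΛ : ∀ s, Λ s = c * Λ0 (s - (a : ℂ))) :
    (∀ (n : ℕ) (T : ℝ), (ZerD Λ n T).Finite) ∧ ∃ b C : ℝ, 0 < b ∧ 0 < C ∧
      (∀ (n : ℕ) (T : ℝ), (num (iteratedDeriv n Λ) (ExcD (1 / 2 + a) Λ n T) : ℝ) ≤
        C * Real.exp (-(b * n)) * num (iteratedDeriv n Λ) (ZerD Λ n T)) ∧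
      (∀ (n : ℕ) (T : ℝ), 2 ≤ T → (num (iteratedDeriv n Λ) (ExcD (1 / 2 + a) Λ n T) : ℝ) ≤
        C * Real.exp (-(b * n)) * T * Real.log T) := by
  obtain ⟨h1, b, C, hb, hC, h2, h3⟩ := h.der hm hA
  obtain rfl : Λ = fun s => c * Λ0 (s - (a : ℂ)) := funext hΛ
  have hit := iter_shift h.diff c (a : ℂ)
  have e1 : ∀ (n : ℕ) (T : ℝ), ZerD (fun s => c * Λ0 (s - (a : ℂ))) n T = (fun z => z + (a : ℂ)) '' ZD Λ0 n T := by
    intro n T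
    refine image_eq fun s => ?_
    show (iteratedDeriv n (fun s => c * Λ0 (s - (a : ℂ))) s = 0 ∧ 0 < s.im ∧ s.im ≤ T) ↔
      (iteratedDeriv n Λ0 (s - a) = 0 ∧ 0 < (s - a : ℂ).im ∧ (s - a : ℂ).im ≤ T)
    rw [im_shift, hit, mul_eq_zero, or_iff_right hc]
  have e2 : ∀ (n : ℕ) (T : ℝ), ExcD (1 / 2 + a) (fun s => c * Λ0 (s - (a : ℂ))) n T =
      (fun z => z + (a : ℂ)) '' ED Λ0 (1 / 2) n T := by
    intro n T
    refine image_eq fun s => ?_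
    show ((iteratedDeriv n (fun s => c * Λ0 (s - (a : ℂ))) s = 0 ∧ 0 < s.im ∧ s.im ≤ T) ∧
        (s.re ≠ 1 / 2 + a ∨ iteratedDeriv (n + 1) (fun s => c * Λ0 (s - (a : ℂ))) s = 0)) ↔
      ((iteratedDeriv n Λ0 (s - a) = 0 ∧ 0 < (s - a : ℂ).im ∧ (s - a : ℂ).im ≤ T) ∧
        ((s - a : ℂ).re ≠ 1 / 2 ∨ iteratedDeriv (n + 1) Λ0 (s - a) = 0))
    rw [im_shift, re_shift, hit, hit, mul_eq_zero, or_iff_right hc, mul_eq_zero, or_iff_right hc]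
    have : s.re ≠ 1 / 2 + a ↔ s.re - a ≠ 1 / 2 := by
      rw [Ne, Ne, sub_eq_iff_eq_add]
    rw [this]
  have e3 : ∀ (n : ℕ) (T : ℝ), num (iteratedDeriv n (fun s => c * Λ0 (s - (a : ℂ))))
      (ExcD (1 / 2 + a) (fun s => c * Λ0 (s - (a : ℂ))) n T) = nu (iteratedDeriv n Λ0) (ED Λ0 (1 / 2) n T) := by
    intro n T
    rw [e2, hit, num_shift _ hc]
    rfl
  have e4 : ∀ (n : ℕ) (T : ℝ), num (iteratedDeriv n (fun s => c * Λ0 (s - (a : ℂ))))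
      (ZerD (fun s => c * Λ0 (s - (a : ℂ))) n T) = nu (iteratedDeriv n Λ0) (ZD Λ0 n T) := by
    intro n T
    rw [e1, hit, num_shift _ hc]
    rfl
  refine ⟨fun n T => ?_, b, C, hb, hC, fun n T => ?_, fun n T hT => ?_⟩
  · rw [e1]
    exact (h1 n T).image _
  · rw [e3, e4]
    exact h2 n T
  · rw [e3]
    exact h3 n T hT

theorem hf_of (hm : 1 ≤ m) (hm5 : m ≤ 5) (hA : 1 ≤ A) (h : Core m A Λ0 H X Z v) (hc : c ≠ 0) (a : ℝ)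
    (hΛ : ∀ s, Λ s = c * Λ0 (s - (a : ℂ))) :
    heat 0 Λ = Λ ∧ (∀ t T : ℝ, 0 ≤ t → (ZerH Λ t T).Finite) ∧ ∃ b C : ℝ, 0 < b ∧ 0 < C ∧
      ∀ t T : ℝ, 0 < t → t ≤ 1 / 8 → 2 ≤ T →
      (num (heat t Λ) (ExcH (1 / 2 + a) Λ t T) : ℝ) ≤
        C * Real.exp (-(b * t * Real.log T ^ 2)) * num (heat t Λ) (ZerH Λ t T) ∧
      (num (heat t Λ) (ExcH (1 / 2 + a) Λ t T) : ℝ) ≤
        C * Real.exp (-(b * t * Real.log T ^ 2)) * T * Real.log T := by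
  obtain ⟨h1, b, C, hb, hC, h2⟩ := h.hf hm hm5 hA
  have h0 := (h.heat_zero hm).1
  obtain rfl : Λ = fun s => c * Λ0 (s - (a : ℂ)) := funext hΛ
  have hit := heat_shift Λ0 c (a : ℂ)
  have e0 : ∀ t : ℝ, deriv (heat t (fun s => c * Λ0 (s - (a : ℂ)))) = fun s => c * deriv (heat t Λ0) (s - (a : ℂ)) := by
    intro t
    rw [hit]
    funext s
    rw [deriv_const_mul_field, deriv_comp_sub_const]
  have e1 : ∀ t T : ℝ, ZerH (fun s => c * Λ0 (s - (a : ℂ))) t T = (fun z => z + (a : ℂ)) '' ZH Λ0 t T := by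
    intro t T
    refine image_eq fun s => ?_
    show (heat t (fun s => c * Λ0 (s - (a : ℂ))) s = 0 ∧ T < s.im ∧ s.im ≤ 2 * T) ↔
      (heat t Λ0 (s - a) = 0 ∧ T < (s - a : ℂ).im ∧ (s - a : ℂ).im ≤ 2 * T)
    rw [im_shift, hit, mul_eq_zero, or_iff_right hc]
  have e2 : ∀ t T : ℝ, ExcH (1 / 2 + a) (fun s => c * Λ0 (s - (a : ℂ))) t T =
      (fun z => z + (a : ℂ)) '' EH Λ0 (1 / 2) t T := by
    intro t T
    refine image_eq fun s => ?_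
    show ((heat t (fun s => c * Λ0 (s - (a : ℂ))) s = 0 ∧ T < s.im ∧ s.im ≤ 2 * T) ∧
        (s.re ≠ 1 / 2 + a ∨ deriv (heat t (fun s => c * Λ0 (s - (a : ℂ)))) s = 0)) ↔
      ((heat t Λ0 (s - a) = 0 ∧ T < (s - a : ℂ).im ∧ (s - a : ℂ).im ≤ 2 * T) ∧
        ((s - a : ℂ).re ≠ 1 / 2 ∨ deriv (heat t Λ0) (s - a) = 0))
    rw [e0, im_shift, re_shift, hit, mul_eq_zero, or_iff_right hc, mul_eq_zero, or_iff_right hc]
    have : s.re ≠ 1 / 2 + a ↔ s.re - a ≠ 1 / 2 := by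
      rw [Ne, Ne, sub_eq_iff_eq_add]
    rw [this]
  have e3 : ∀ t T : ℝ, num (heat t (fun s => c * Λ0 (s - (a : ℂ))))
      (ExcH (1 / 2 + a) (fun s => c * Λ0 (s - (a : ℂ))) t T) = nu (heat t Λ0) (EH Λ0 (1 / 2) t T) := by
    intro t T
    rw [e2, hit, num_shift _ hc]
    rfl
  have e4 : ∀ t T : ℝ, num (heat t (fun s => c * Λ0 (s - (a : ℂ))))
      (ZerH (fun s => c * Λ0 (s - (a : ℂ))) t T) = nu (heat t Λ0) (ZH Λ0 t T) := by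
    intro t T
    rw [e1, hit, num_shift _ hc]
    rfl
  refine ⟨?_, fun t T ht => ?_, b, C, hb, hC, fun t T ht0 ht hT => ?_⟩
  · rw [hit, h0]
  · rw [e1]
    exact (h1 t T ht).image _
  · rw [e3, e4]
    exact h2 t T ht0 ht hT

end

end Pool.Agent.Q28.HW
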