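import Pool.Agent.Q28.HW.Defs
import Pool.Agent.Q28.AR.Form

/-!
# Newforms of any weight and nebentypus are instances of `Frm`

Adapted from `Pool.Agent.Q28.AR.Form` (weight one).
-/

set_option autoImplicit false

namespace Pool.Agent.Q28.HW

open UpperHalfPlane hiding I
open MatrixGroups CongruenceSubgroup Filter Topology Complex
open Pool.Agent.Y671.GL
open Pool.Agent.Q28.AR (psi im_of_re im_val re_dual)
open scoped ComplexConjugate

/-- normalised coefficients `a(n) n^(-(k-1)/2)` -/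
noncomputable def lm {N k : ℕ} (f : CuspForm (Gamma1 N : Subgroup (GL (Fin 2) ℝ)) (k : ℤ)) (n : ℕ) : ℂ :=
  a f n * (((n : ℝ) ^ (-(((k : ℝ) - 1) / 2)) : ℝ) : ℂ)

/-- the hypothesis on the Euler factors: roots in the closed unit disc -/
def Split {N k : ℕ} (ψ : DirichletCharacter ℂ N) (f : CuspForm (Gamma1 N : Subgroup (GL (Fin 2) ℝ)) (k : ℤ)) : Prop :=
  ∀ p : ℕ, p.Prime → ∃ α β : ℂ, ‖α‖ ≤ 1 ∧ ‖β‖ ≤ 1 ∧ lm f p = α + β ∧ ψ (p : ZMod N) = α * β

section

variable {N k : ℕ} [NeZero N] {ψ : DirichletCharacter ℂ N}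
  {f : CuspForm (Gamma1 N : Subgroup (GL (Fin 2) ℝ)) (k : ℤ)}

theorem one_mem1 : (1 : ℝ) ∈ (Gamma1 N : Subgroup (GL (Fin 2) ℝ)).strictPeriods := by
  rw [strictPeriods_Gamma1]
  exact AddSubgroup.mem_zmultiples 1

theorem a_zero : a f 0 = 0 :=
  CuspFormClass.qExpansion_coeff_zero (Γ := (Gamma1 N : Subgroup (GL (Fin 2) ℝ))) (k := (k : ℤ)) f one_pos one_mem1

theorem lm_zero : lm f 0 = 0 := by
  unfold lm
  rw [a_zero, zero_mul]

theorem hasSum_f {w : ℂ} (hw : 0 < w.im) :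
    HasSum (fun n : ℕ => a f n * Complex.exp (2 * Real.pi * Complex.I * n * w)) (f (ofComplex w)) := by
  have h := ModularForm.hasSum_qExpansion (Γ := (Gamma1 N : Subgroup (GL (Fin 2) ℝ))) (k := (k : ℤ)) f
    one_pos one_mem1 (ofComplex w)
  convert h using 2 with n
  change _ = a f n * _
  congr 1
  rw [ofComplex_apply_of_im_pos hw]
  unfold Function.Periodic.qParam
  rw [← Complex.exp_nat_mul]
  congr 1
  push_cast
  ring

theorem aa_lm (n : ℕ) : aa k (lm f) n = a f n := by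
  unfold aa lm
  rcases Nat.eq_zero_or_pos n with rfl | hn
  · rw [a_zero]
    simp
  · have hn0 : (0 : ℝ) < n := by exact_mod_cast hn
    rw [mul_assoc, ← Complex.ofReal_mul, ← Real.rpow_add hn0, neg_add_cancel, Real.rpow_zero, Complex.ofReal_one,
      mul_one]

/-- `Φ(z) = f(iz/2π)` -/
theorem Ph_lm {z : ℂ} (hz : 0 < z.re) :
    Ph k (lm f) z = f (ofComplex (I * z / (2 * Real.pi))) := by
  unfold Ph
  rw [← (hasSum_f (f := f) (im_of_re hz)).tsum_eq]
  refine tsum_congr fun n => ?_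
  rw [aa_lm]
  congr 2
  have : (Real.pi : ℂ) ≠ 0 := by exact_mod_cast Real.pi_ne_zero
  field_simp
  rw [Complex.I_sq]
  ring

theorem bd_lm : ∃ C : ℝ, ∀ z : ℂ, 0 < z.re → ‖Ph k (lm f) z‖ ≤ C * z.re ^ (-((k : ℝ) / 2)) := by
  obtain ⟨C, hC⟩ := CuspFormClass.exists_bound (Γ := (Gamma1 N : Subgroup (GL (Fin 2) ℝ))) f
  refine ⟨C * (2 * Real.pi) ^ ((k : ℝ) / 2), fun z hz => ?_⟩
  rw [Ph_lm hz]
  have h1 := hC (ofComplex (I * z / (2 * Real.pi)))
  have h2 : (ofComplex (I * z / (2 * Real.pi))).im = z.re / (2 * Real.pi) := by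
    rw [ofComplex_apply_of_im_pos (im_of_re hz)]
    exact im_val z
  rw [h2] at h1
  refine h1.trans (le_of_eq ?_)
  have hpi := Real.pi_pos
  rw [Int.cast_natCast, Real.div_rpow hz.le (by positivity), Real.rpow_neg hz.le]
  have h3 : 0 < z.re ^ ((k : ℝ) / 2) := by positivity
  have h4 : 0 < (2 * Real.pi) ^ ((k : ℝ) / 2) := by positivity
  field_simp

theorem f_gamma (hf : IsNewform N k ψ f) {a b c d : ℤ} (hdet : a * d - b * c = 1) (hc : (N : ℤ) ∣ c)
    {w : ℂ} (hw : 0 < w.im) :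
    f (ofComplex ((a * w + b) / (c * w + d))) = ψ (d : ZMod N) * ((c : ℂ) * w + d) ^ k * f (ofComplex w) := by
  let γ : SL(2, ℤ) := ⟨!![a, b; c, d], by rw [Matrix.det_fin_two_of]; exact hdet⟩
  have hγ : γ ∈ Gamma0 N := by
    rw [Gamma0_mem]
    change ((c : ℤ) : ZMod N) = 0
    rwa [ZMod.intCast_zmod_eq_zero_iff_dvd]
  let z : ℍ := ⟨w, hw⟩
  have h1 := hf.neb γ hγ z
  have hz : ofComplex w = z := ofComplex_apply_of_im_pos hw
  have h2 : ((γ • z : ℍ) : ℂ) = (a * w + b) / (c * w + d) := by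
    rw [coe_specialLinearGroup_apply]
    have e00 : γ 0 0 = a := rfl
    have e01 : γ 0 1 = b := rfl
    have e10 : γ 1 0 = c := rfl
    have e11 : γ 1 1 = d := rfl
    have ez : (z : ℂ) = w := rfl
    rw [e00, e01, e10, e11, ez]
    simp only [algebraMap_int_eq, eq_intCast, Complex.ofReal_intCast]
  have h3 : ofComplex ((a * w + b) / (c * w + d)) = γ • z := by
    rw [← h2]
    exact ofComplex_apply _
  have h4 : denom (γ : GL (Fin 2) ℝ) z = c * w + d := by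
    rw [ModularGroup.denom_apply]
    rfl
  rw [h3, h1, hz, h4]
  rfl

theorem cusp_lm (hf : IsNewform N k ψ f) (q : ℕ) (a' b : ℤ) (hq : 1 ≤ q) (hN : N ∣ q)
    (hab : (q : ℤ) ∣ a' * b - 1) (z : ℂ) (hz : 0 < z.re) :
    Ph k (lm f) (z + 2 * Real.pi * I * a' / q) = (ψ (a' : ZMod N))⁻¹ * (2 * Real.pi / (I * q * z)) ^ k *
        Ph k (lm f) (4 * Real.pi ^ 2 / (q ^ 2 * z) - 2 * Real.pi * I * b / q) := by
  have hz0 : z ≠ 0 := by
    intro h; rw [h] at hz; simp at hz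
  have hqC : (q : ℂ) ≠ 0 := by exact_mod_cast (by omega : q ≠ 0)
  have hpi : (Real.pi : ℂ) ≠ 0 := by exact_mod_cast Real.pi_ne_zero
  have hz1 : 0 < (z + 2 * Real.pi * I * a' / q : ℂ).re := by
    have h2 : (2 * Real.pi * I * a' / q : ℂ) = ((2 * Real.pi * a' / q : ℝ) : ℂ) * I := by
      push_cast
      ring
    rw [h2, add_re, Complex.re_ofReal_mul, Complex.I_re, mul_zero, add_zero]
    exact hz
  rw [Ph_lm hz1, Ph_lm (re_dual hq hz b)]
  obtain ⟨g, hg⟩ := hab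
  obtain ⟨w, hw⟩ : ∃ w : ℂ, w = I * (z + 2 * Real.pi * I * a' / q) / (2 * Real.pi) := ⟨_, rfl⟩
  have hwi : 0 < w.im := by rw [hw]; exact im_of_re hz1
  have h1 := f_gamma hf (a := b) (b := g) (c := q) (d := a') (by linarith)
    (by exact_mod_cast hN) hwi
  have hI : I ^ 2 = -1 := Complex.I_sq
  have e1 : (((q : ℤ) : ℂ) * w + a') = q * (I * z / (2 * Real.pi)) := by
    rw [hw]
    push_cast
    field_simp
    linear_combination (2 * Real.pi * (a' : ℂ)) * hI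
  have hgC : (a' : ℂ) * b - 1 = q * g := by exact_mod_cast hg
  have e2 : ((b : ℂ) * w + g) / (((q : ℤ) : ℂ) * w + a') =
      I * (4 * Real.pi ^ 2 / (q ^ 2 * z) - 2 * Real.pi * I * b / q) / (2 * Real.pi) := by
    rw [e1, div_eq_iff (by
      apply mul_ne_zero hqC
      apply div_ne_zero (mul_ne_zero Complex.I_ne_zero hz0)
      exact mul_ne_zero two_ne_zero hpi)]
    rw [hw]
    field_simp
    linear_combination (-4 * Real.pi : ℂ) * hgC + (2 * b * I * z * q + 4 * Real.pi * a' * b - 4 * Real.pi) * hI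
  have hψ : ψ (a' : ZMod N) ≠ 0 := by
    have h2 : IsUnit (a' : ZMod N) := by
      refine IsUnit.of_mul_eq_one (b : ZMod N) ?_
      have h3 : ((a' * b - 1 : ℤ) : ZMod N) = 0 := by
        rw [ZMod.intCast_zmod_eq_zero_iff_dvd]
        exact (Int.natCast_dvd_natCast.2 hN).trans ⟨g, hg⟩
      push_cast at h3
      exact sub_eq_zero.1 h3
    obtain ⟨v, hv⟩ := h2
    rw [← hv]
    have := ψ.unit_norm_eq_one v
    intro h0
    rw [h0, norm_zero] at this
    exact zero_ne_one this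
  rw [e2, e1, hw] at h1
  rw [h1]
  have e3 : (2 * Real.pi / (I * q * z) * (q * (I * z / (2 * Real.pi))) : ℂ) = 1 := by
    field_simp
  have e4 : (2 * Real.pi / (I * q * z)) ^ k * (q * (I * z / (2 * Real.pi))) ^ k = (1 : ℂ) := by
    rw [← mul_pow, e3, one_pow]
  linear_combination (-(ψ (a' : ZMod N))⁻¹ * ψ (a' : ZMod N) *
    f (ofComplex (I * (z + 2 * Real.pi * I * a' / q) / (2 * Real.pi)))) * e4 -
    f (ofComplex (I * (z + 2 * Real.pi * I * a' / q) / (2 * Real.pi))) * (inv_mul_cancel₀ hψ)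

theorem Ph_conj {z : ℂ} (hz : 0 < z.re) :
    Ph k (fun n => conj (lm f n)) z = conj (f (ofComplex (I * conj z / (2 * Real.pi)))) := by
  have hz' : 0 < (conj z).re := by simpa using hz
  rw [← Ph_lm hz']
  unfold Ph
  rw [Complex.conj_tsum]
  refine tsum_congr fun n => ?_
  have e1 : aa k (fun n => conj (lm f n)) n = conj (aa k (lm f) n) := by
    unfold aa
    rw [map_mul, Complex.conj_ofReal]
  rw [e1, map_mul, ← Complex.exp_conj]
  congr 2
  simp

theorem fricke_lm (hf : IsNewform N k ψ f) : ∃ ε : ℂ, ‖ε‖ = 1 ∧ ∀ z : ℂ, 0 < z.re →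
    Ph k (lm f) (4 * Real.pi ^ 2 / (N * z)) =
      ε * ((Real.sqrt N : ℝ) * z / (2 * Real.pi)) ^ k * Ph k (fun n => conj (lm f n)) z := by
  obtain ⟨η, hη, hfr⟩ := hf.fricke
  refine ⟨η, hη, fun z hz => ?_⟩
  have hz0 : z ≠ 0 := by
    intro h; rw [h] at hz; simp at hz
  have hN0 : (0 : ℝ) < N := by exact_mod_cast Nat.pos_of_ne_zero (NeZero.ne N)
  have hNC : (N : ℂ) ≠ 0 := by exact_mod_cast NeZero.ne N
  have hpi : (Real.pi : ℂ) ≠ 0 := by exact_mod_cast Real.pi_ne_zero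
  have hpi0 := Real.pi_pos
  have hre : 0 < (4 * Real.pi ^ 2 / (N * z) : ℂ).re := by
    have h1 : (4 * Real.pi ^ 2 / (N * z) : ℂ) = ((4 * Real.pi ^ 2 / N : ℝ) : ℂ) * z⁻¹ := by
      push_cast
      field_simp
    rw [h1, Complex.re_ofReal_mul, Complex.inv_re]
    have := Complex.normSq_pos.2 hz0
    positivity
  have hz' : 0 < (conj z).re := by simpa using hz
  rw [Ph_lm hre, Ph_conj hz]
  have h1 := hfr (ofComplex (I * z / (2 * Real.pi)))
    (ofComplex (I * (4 * Real.pi ^ 2 / (N * z)) / (2 * Real.pi)))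
    (ofComplex (I * conj z / (2 * Real.pi))) (by
      rw [ofComplex_apply_of_im_pos (im_of_re hz), ofComplex_apply_of_im_pos (im_of_re hre)]
      show I * (4 * Real.pi ^ 2 / (N * z)) / (2 * Real.pi) * (N * (I * z / (2 * Real.pi))) = -1
      field_simp
      rw [Complex.I_sq]
      ring) (by
      rw [ofComplex_apply_of_im_pos (im_of_re hz), ofComplex_apply_of_im_pos (im_of_re hz')]
      show I * conj z / (2 * Real.pi) = -conj (I * z / (2 * Real.pi))
      rw [map_div₀, map_mul, map_mul, Complex.conj_I, Complex.conj_ofReal, map_ofNat]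
      ring)
  rw [h1]
  congr 3
  rw [ofComplex_apply_of_im_pos (im_of_re hz)]
  show ((Real.sqrt N : ℝ) : ℂ) * (I * z / (2 * Real.pi)) / I = _
  field_simp

end

section coef

variable {N k : ℕ} {ψ : DirichletCharacter ℂ N}
  {f : CuspForm (Gamma1 N : Subgroup (GL (Fin 2) ℝ)) (k : ℤ)}

theorem lm_one (hf : IsNewform N k ψ f) : lm f 1 = 1 := by
  unfold lm
  rw [hf.one]
  simp

theorem lm_mul (hf : IsNewform N k ψ f) (m n : ℕ) (h : Nat.Coprime m n) : lm f (m * n) = lm f m * lm f n := by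
  unfold lm
  rw [hf.mul m n h, Nat.cast_mul, Real.mul_rpow (Nat.cast_nonneg _) (Nat.cast_nonneg _)]
  push_cast
  ring

theorem lm_pow (hk : 1 ≤ k) (hf : IsNewform N k ψ f) (p j : ℕ) (hp : p.Prime) :
    lm f (p ^ (j + 2)) = lm f p * lm f (p ^ (j + 1)) - ψ (p : ZMod N) * lm f (p ^ j) := by
  have hp0 : (0 : ℝ) < p := by exact_mod_cast hp.pos
  obtain ⟨x, hx⟩ : ∃ x : ℝ, x = -(((k : ℝ) - 1) / 2) := ⟨_, rfl⟩
  obtain ⟨P, hP⟩ : ∃ P : ℝ, P = (p : ℝ) ^ x := ⟨_, rfl⟩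
  have hpow : ∀ i : ℕ, ((p ^ i : ℕ) : ℝ) ^ x = P ^ i := by
    intro i
    rw [hP, Nat.cast_pow, ← Real.rpow_natCast, ← Real.rpow_natCast, ← Real.rpow_mul hp0.le,
      ← Real.rpow_mul hp0.le, mul_comm]
  have hP2 : P ^ 2 * (p : ℝ) ^ (k - 1) = 1 := by
    rw [hP, ← Real.rpow_natCast, ← Real.rpow_natCast, ← Real.rpow_mul hp0.le, ← Real.rpow_add hp0, hx,
      Nat.cast_sub hk]
    have : -(((k : ℝ) - 1) / 2) * ((2 : ℕ) : ℝ) + ((k : ℝ) - ((1 : ℕ) : ℝ)) = 0 := by push_cast; ring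
    rw [this, Real.rpow_zero]
  have hP2c : (P : ℂ) ^ 2 * (p : ℂ) ^ (k - 1) = 1 := by exact_mod_cast hP2
  unfold lm
  rw [← hx, hpow, hpow, hpow, ← hP, hf.pow p j hp]
  push_cast
  linear_combination (-(ψ (p : ZMod N)) * a f (p ^ j) * (P : ℂ) ^ j) * hP2c

theorem lm_pow_le (hk : 1 ≤ k) (hf : IsNewform N k ψ f) (hs : Split ψ f) {p : ℕ} (hp : p.Prime) (j : ℕ) :
    ‖lm f (p ^ j)‖ ≤ j + 1 := by
  obtain ⟨α, β, hα, hβ, h1, h2⟩ := hs p hp
  have key : ∀ j : ℕ, lm f (p ^ (j + 1)) = α * lm f (p ^ j) + β ^ (j + 1) := by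
    intro j
    induction j with
    | zero =>
      rw [zero_add, pow_one, pow_zero, lm_one hf, h1, pow_one, mul_one]
    | succ j ih =>
      rw [lm_pow hk hf p j hp, h1, h2, ih]
      ring
  induction j with
  | zero => rw [pow_zero, lm_one hf]; simp
  | succ j ih =>
    rw [key j]
    calc ‖α * lm f (p ^ j) + β ^ (j + 1)‖ ≤ ‖α‖ * ‖lm f (p ^ j)‖ + ‖β‖ ^ (j + 1) := by
          rw [← norm_mul, ← norm_pow]
          exact norm_add_le _ _
      _ ≤ 1 * (j + 1) + 1 := by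
          have h3 : ‖β‖ ^ (j + 1) ≤ 1 := pow_le_one₀ (norm_nonneg _) hβ
          have h4 : ‖α‖ * ‖lm f (p ^ j)‖ ≤ 1 * (j + 1) :=
            mul_le_mul hα ih (norm_nonneg _) zero_le_one
          linarith
      _ = _ := by push_cast; ring

theorem lm_le_card (hk : 1 ≤ k) (hf : IsNewform N k ψ f) (hs : Split ψ f) (n : ℕ) (hn : 1 ≤ n) :
    ‖lm f n‖ ≤ n.divisors.card := by
  induction n using Nat.recOnPosPrimePosCoprime with
  | prime_pow p j hp hj =>
    rw [Nat.divisors_prime_pow hp, Finset.card_map, Finset.card_range]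
    have := lm_pow_le hk hf hs hp j
    push_cast
    exact this
  | zero => omega
  | one => rw [lm_one hf]; simp
  | coprime m n hm hn hmn ihm ihn =>
    rw [lm_mul hf m n hmn, norm_mul, hmn.card_divisors_mul]
    push_cast
    exact mul_le_mul (ihm (by omega)) (ihn (by omega)) (norm_nonneg _) (Nat.cast_nonneg _)

theorem ram_lm (hk : 1 ≤ k) (hf : IsNewform N k ψ f) (hs : Split ψ f) : ∃ th C : ℝ, 0 ≤ th ∧ th < 1 / 2 ∧
    ∀ n : ℕ, 1 ≤ n → ‖lm f n‖ ≤ C * (n : ℝ) ^ th := by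
  refine ⟨1 / 4, Pool.Agent.H398R3.NA.D5, by norm_num, by norm_num, fun n hn => ?_⟩
  have h1 := lm_le_card hk hf hs n hn
  have h2 := Pool.Agent.H398R3.NA.div_bound n (by omega)
  have h3 : (1 : ℝ) ≤ n.divisors.card := by
    have : 0 < n.divisors.card := Finset.card_pos.2 (Nat.nonempty_divisors.2 (by omega))
    exact_mod_cast this
  have h4 : (n.divisors.card : ℝ) ≤ (n.divisors.card : ℝ) ^ 5 := le_self_pow₀ h3 (by norm_num)
  linarith

theorem rs_lm (hs : Split ψ f) : ∃ C : ℝ, ∀ x : ℝ, 2 ≤ x →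
    ∑ p ∈ (Finset.Icc 1 ⌊x⌋₊).filter Nat.Prime, ‖lm f p‖ ^ 2 * Real.log p / p ≤ 4 * Real.log x + C := by
  obtain ⟨C, hC⟩ := Pool.Agent.Erdos456.Mert.mertens_log
  refine ⟨4 * C, fun x hx => ?_⟩
  have hfl : 1 ≤ ⌊x⌋₊ := Nat.le_floor (by norm_num; linarith)
  have h1 := abs_le.1 (hC ⌊x⌋₊ hfl)
  have h2 : Real.log (⌊x⌋₊ : ℝ) ≤ Real.log x :=
    Real.log_le_log (by exact_mod_cast hfl) (Nat.floor_le (by linarith))
  have h3 : ∑ p ∈ (Finset.Icc 1 ⌊x⌋₊).filter Nat.Prime, ‖lm f p‖ ^ 2 * Real.log p / p ≤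
      4 * ∑ p ∈ (Finset.Icc 1 ⌊x⌋₊).filter Nat.Prime, Real.log p / p := by
    rw [Finset.mul_sum]
    refine Finset.sum_le_sum fun p hp => ?_
    obtain ⟨α, β, hα, hβ, e1, e2⟩ := hs p (Finset.mem_filter.1 hp).2
    have h4 : ‖lm f p‖ ≤ 2 := by
      rw [e1]
      linarith [norm_add_le α β]
    have h5 : ‖lm f p‖ ^ 2 ≤ 4 := by nlinarith [norm_nonneg (lm f p)]
    have h6 : (0 : ℝ) ≤ Real.log p / p := div_nonneg (Real.log_natCast_nonneg p) (Nat.cast_nonneg p)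
    calc ‖lm f p‖ ^ 2 * Real.log p / p = ‖lm f p‖ ^ 2 * (Real.log p / p) := by ring
      _ ≤ 4 * (Real.log p / p) := mul_le_mul_of_nonneg_right h5 h6
  linarith [h1.2]

end coef

/-- **the form** -/
theorem frm {N k : ℕ} [NeZero N] {ψ : DirichletCharacter ℂ N} (hk : 1 ≤ k)
    {f : CuspForm (Gamma1 N : Subgroup (GL (Fin 2) ℝ)) (k : ℤ)} (hf : IsNewform N k ψ f) (hs : Split ψ f) :
    Frm k N (psi ψ) (lm f) where
  k_pos := hk
  N_pos := Nat.pos_of_ne_zero (NeZero.ne N)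
  zero := lm_zero
  one := lm_one hf
  mul := lm_mul hf
  pow := lm_pow hk hf
  ps_le p := ψ.norm_le_one _
  ram := ram_lm hk hf hs
  rs := rs_lm hs
  bd := bd_lm
  cusp := by
    refine ⟨fun a => (ψ (a : ZMod N))⁻¹, fun a ha => ?_, fun q a b hq hN hab z hz => cusp_lm hf q a b hq hN hab z hz⟩
    have hu : IsUnit (a : ZMod N) := by
      obtain ⟨u, v, huv⟩ := ha
      refine IsUnit.of_mul_eq_one (u : ZMod N) ?_
      have h3 : ((u * a + v * N : ℤ) : ZMod N) = ((1 : ℤ) : ZMod N) := by rw [huv]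
      push_cast at h3
      rw [ZMod.natCast_self, mul_zero, add_zero] at h3
      rw [mul_comm]
      exact h3
    obtain ⟨v, hv⟩ := hu
    show ‖(ψ (a : ZMod N))⁻¹‖ = 1
    rw [← hv, norm_inv, ψ.unit_norm_eq_one, inv_one]
  fricke := fricke_lm hf

end Pool.Agent.Q28.HW
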