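import Pool.Agent.Q28.HW.Fam
import Pool.Agent.Q28.AR.Main

/-!
# Hasse-Weil L-functions of GL(2) type in odd degree
-/

set_option autoImplicit false

namespace Pool.Agent.Q28.HW

open UpperHalfPlane hiding I
open MatrixGroups CongruenceSubgroup Filter Topology Complex
open Pool.Agent.Y671.GL
open Pool.Agent.Q28.AR (Core base_cpow prod_cpow quad_split)
open scoped ComplexConjugate

/-- What enters of the cohomology `H^i`, `i` odd, of a projective smooth scheme `X` over `ℤ[1/N]` in the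
Hasse-Weil L-function `L(i; X, s)` and its gamma factor; the Frobenius eigenvalues on the inertia invariants at
the primes `p ∣ N` are at most `p^{i/2}`. -/
structure Cohomology (i : ℕ) where
  /-- the integer `N`: good reduction for `p ∤ N` -/
  N : ℕ
  /-- the Hodge numbers `hodge q = h^{q, i - q}` for `2 q < i` -/
  hodge : ℕ → ℕ
  /-- `P_i(X(p), T)` for `p ∤ N`, and `det(1 - Frob_p T | H^i(X)^{I_p})` for `p ∣ N` -/
  P : ℕ → Polynomial ℤ
  odd : Odd i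
  N_pos : 0 < N
  const : ∀ p : ℕ, p.Prime → (P p).coeff 0 = 1
  degree_good : ∀ p : ℕ, p.Prime → ¬ p ∣ N →
    (P p).natDegree = 2 * ∑ q ∈ Finset.range ((i + 1) / 2), hodge q
  degree_bad : ∀ p : ℕ, p.Prime → p ∣ N →
    (P p).natDegree ≤ 2 * ∑ q ∈ Finset.range ((i + 1) / 2), hodge q
  roots_good : ∀ p : ℕ, p.Prime → ¬ p ∣ N → ∀ z : ℂ, Polynomial.aeval z (P p) = 0 →
    ‖z‖ = (p : ℝ) ^ (-((i : ℝ) / 2))
  roots_bad : ∀ p : ℕ, p.Prime → p ∣ N → ∀ z : ℂ, Polynomial.aeval z (P p) = 0 →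
    (p : ℝ) ^ (-((i : ℝ) / 2)) ≤ ‖z‖

/-- `V = H^i(X)` is of GL(2) type: its L-function is the product of the L-functions of the newforms `f j`
of weight `k j` shifted by the integer `t j`, Euler factor by Euler factor, and the Hodge numbers are
those of the newforms (`f j` has the Hodge type `(t j, i - t j) + (i - t j, t j)`). -/
structure ModularType {i : ℕ} (V : Cohomology i) {m : ℕ} (N k t : Fin m → ℕ)
    (ψ : (j : Fin m) → DirichletCharacter ℂ (N j))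
    (f : (j : Fin m) → CuspForm (Gamma1 (N j) : Subgroup (GL (Fin 2) ℝ)) (k j : ℤ)) : Prop where
  newform : ∀ j, IsNewform (N j) (k j) (ψ j) (f j)
  twist : ∀ j, 2 * t j < i
  weight : ∀ j, k j + 2 * t j = i + 1
  hodge : ∀ q : ℕ, 2 * q < i → V.hodge q = (Finset.univ.filter fun j => t j = q).card
  euler : ∀ p : ℕ, p.Prime → (V.P p).map (Int.castRingHom ℂ) =
    ∏ j, (1 - Polynomial.C (a (f j) p * (p : ℂ) ^ t j) * Polynomial.X +
      Polynomial.C (ψ j (p : ZMod (N j)) * (p : ℂ) ^ i) * Polynomial.X ^ 2)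

/-- `L` is the Hasse-Weil L-function `L(i; X, s)`, and it is entire: for `Re s > 1 + i/2` it is the product of
`P_p(p^{-s})⁻¹` over all primes `p`. -/
def IsHasseWeil {i : ℕ} (V : Cohomology i) (L : ℂ → ℂ) : Prop :=
  Differentiable ℂ L ∧ ∀ s : ℂ, 1 + (i : ℝ) / 2 < s.re →
    HasProd (fun p : Nat.Primes => (Polynomial.aeval (((p : ℕ) : ℂ) ^ (-s)) (V.P p))⁻¹) (L s)

/-- `Λ` is the completed L-function `Λ_A(i; X, s) = A^{s/2} ∏_{q < i - q} Γ_ℂ(s - q)^{h^{q, i-q}} L(i; X, s)`,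
and it is entire. -/
def IsCompleted {i : ℕ} (V : Cohomology i) (A : ℕ) (L Λ : ℂ → ℂ) : Prop :=
  Differentiable ℂ Λ ∧ ∀ s : ℂ, 1 + (i : ℝ) / 2 < s.re → Λ s = (A : ℂ) ^ (s / 2) *
    (∏ q ∈ Finset.range ((i + 1) / 2), Gammaℂ (s - q) ^ V.hodge q) * L s

theorem entire_uniq {f g : ℂ → ℂ} (hf : Differentiable ℂ f) (hg : Differentiable ℂ g) (σ : ℝ)
    (h : ∀ s : ℂ, σ < s.re → f s = g s) : f = g := by
  have hf' : AnalyticOnNhd ℂ f Set.univ := fun z _ => hf.analyticAt z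
  have hg' : AnalyticOnNhd ℂ g Set.univ := fun z _ => hg.analyticAt z
  have hU : IsOpen {s : ℂ | σ < s.re} := isOpen_lt continuous_const Complex.continuous_re
  have hmem : (((σ + 1 : ℝ)) : ℂ) ∈ {s : ℂ | σ < s.re} := by
    simp
  have h1 : f =ᶠ[𝓝 (((σ + 1 : ℝ)) : ℂ)] g := by
    filter_upwards [hU.mem_nhds hmem] with s hs
    exact h s hs
  exact hf'.eq_of_eventuallyEq hg' h1

theorem hw_unique {i : ℕ} {V : Cohomology i} {L L' : ℂ → ℂ} (h : IsHasseWeil V L) (h' : IsHasseWeil V L') :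
    L' = L :=
  entire_uniq h'.1 h.1 _ fun s hs => (h'.2 s hs).unique (h.2 s hs)

theorem completed_unique {i : ℕ} {V : Cohomology i} {A : ℕ} {L Λ Λ' : ℂ → ℂ} (h : IsCompleted V A L Λ)
    (h' : IsCompleted V A L Λ') : Λ' = Λ :=
  entire_uniq h'.1 h.1 _ fun s hs => by rw [h'.2 s hs, h.2 s hs]

section

variable {i m : ℕ} {V : Cohomology i} {N k t : Fin m → ℕ} [∀ j, NeZero (N j)]
  {ψ : (j : Fin m) → DirichletCharacter ℂ (N j)}
  {f : (j : Fin m) → CuspForm (Gamma1 (N j) : Subgroup (GL (Fin 2) ℝ)) (k j : ℤ)}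

theorem lm_eq {j : Fin m} (hw : k j + 2 * t j = i + 1) {p : ℕ} (hp : p.Prime) :
    lm (f j) p = a (f j) p * (p : ℂ) ^ t j * (((p : ℝ) ^ (-((i : ℝ) / 2)) : ℝ) : ℂ) := by
  unfold lm
  have hp0 : (0 : ℝ) < p := by exact_mod_cast hp.pos
  have e : (p : ℝ) ^ (-(((k j : ℝ) - 1) / 2)) = (p : ℝ) ^ (t j : ℕ) * (p : ℝ) ^ (-((i : ℝ) / 2)) := by
    rw [← Real.rpow_natCast, ← Real.rpow_add hp0]
    congr 1
    have : (k j : ℝ) + 2 * t j = i + 1 := by exact_mod_cast hw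
    linarith
  rw [e]
  push_cast
  ring

theorem aeval_eq (h : ModularType V N k t ψ f) {p : ℕ} (hp : p.Prime) (z : ℂ) :
    Polynomial.aeval z (V.P p) = ∏ j, (1 - a (f j) p * (p : ℂ) ^ t j * z +
      ψ j (p : ZMod (N j)) * (p : ℂ) ^ i * z ^ 2) := by
  have h1 : Polynomial.aeval z (V.P p) = Polynomial.eval z ((V.P p).map (Int.castRingHom ℂ)) := by
    rw [Polynomial.eval_map, Polynomial.aeval_def]
    rfl
  rw [h1, h.euler p hp, Polynomial.eval_prod]
  refine Finset.prod_congr rfl fun j _ => ?_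
  simp

theorem aeval_x (h : ModularType V N k t ψ f) {p : ℕ} (hp : p.Prime) (x : ℂ) :
    Polynomial.aeval (x * (((p : ℝ) ^ (-((i : ℝ) / 2)) : ℝ) : ℂ)) (V.P p) =
      ∏ j, (1 - lm (f j) p * x + ψ j (p : ZMod (N j)) * x ^ 2) := by
  rw [aeval_eq h hp]
  refine Finset.prod_congr rfl fun j _ => ?_
  have hp0 : (0 : ℝ) < p := by exact_mod_cast hp.pos
  rw [lm_eq (h.weight j) hp]
  have e : (p : ℂ) ^ i * ((((p : ℝ) ^ (-((i : ℝ) / 2)) : ℝ) : ℂ)) ^ 2 = 1 := by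
    have : (p : ℝ) ^ i * ((p : ℝ) ^ (-((i : ℝ) / 2))) ^ 2 = 1 := by
      rw [← Real.rpow_natCast, ← Real.rpow_natCast, ← Real.rpow_mul hp0.le, ← Real.rpow_add hp0]
      have : (i : ℝ) + -((i : ℝ) / 2) * ((2 : ℕ) : ℝ) = 0 := by push_cast; ring
      rw [this, Real.rpow_zero]
    exact_mod_cast this
  linear_combination (ψ j (p : ZMod (N j)) * x ^ 2) * e

theorem split_of (h : ModularType V N k t ψ f) (j : Fin m) : Split (ψ j) (f j) := by
  intro p hp
  have hp0 : (0 : ℝ) < p := by exact_mod_cast hp.pos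
  refine quad_split fun x hx => ?_
  have h1 : Polynomial.aeval (x * (((p : ℝ) ^ (-((i : ℝ) / 2)) : ℝ) : ℂ)) (V.P p) = 0 := by
    rw [aeval_x h hp]
    exact Finset.prod_eq_zero (Finset.mem_univ j) hx
  have h2 : (p : ℝ) ^ (-((i : ℝ) / 2)) ≤ ‖x * (((p : ℝ) ^ (-((i : ℝ) / 2)) : ℝ) : ℂ)‖ := by
    by_cases hpN : p ∣ V.N
    · exact V.roots_bad p hp hpN _ h1
    · exact (V.roots_good p hp hpN _ h1).ge
  have h3 : 0 < (p : ℝ) ^ (-((i : ℝ) / 2)) := Real.rpow_pos_of_pos hp0 _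
  rw [norm_mul, Complex.norm_real, Real.norm_of_nonneg h3.le] at h2
  by_contra hc
  push Not at hc
  nlinarith

theorem pow_sub {p : ℕ} (hp : p.Prime) (s : ℂ) :
    (p : ℂ) ^ (-s) = (p : ℂ) ^ (-(s - (i : ℂ) / 2)) * (((p : ℝ) ^ (-((i : ℝ) / 2)) : ℝ) : ℂ) := by
  have hp0 : (p : ℂ) ≠ 0 := by exact_mod_cast hp.ne_zero
  have e : ((((p : ℝ) ^ (-((i : ℝ) / 2)) : ℝ)) : ℂ) = (p : ℂ) ^ (-((i : ℂ) / 2)) := by
    rw [Complex.ofReal_cpow (by positivity)]
    push_cast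
    rfl
  rw [e, ← Complex.cpow_add _ _ hp0]
  congr 1
  ring

/-- the L-function -/
theorem hw_of (h : ModularType V N k t ψ f) (hk : ∀ j, 1 ≤ k j) {F : Fin m → ℂ → ℂ}
    (hF : ∀ j, IsL (lm (f j)) (F j)) : IsHasseWeil V (fun s => ∏ j, F j (s - (i : ℂ) / 2)) := by
  classical
  refine ⟨?_, fun s hs => ?_⟩
  · exact Differentiable.fun_finsetProd (𝕜 := ℂ) (u := Finset.univ) (f := fun j s => F j (s - (i : ℂ) / 2))
      fun j _ => (hF j).diff.comp (differentiable_id.sub_const _)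
  · have hre : 1 < (s - (i : ℂ) / 2).re := by
      have : (s - (i : ℂ) / 2).re = s.re - (i : ℝ) / 2 := by simp
      rw [this]
      linarith
    have h1 := fun j => euler_one (hk j) (h.newform j) (split_of h j) (hF j) hre
    have h2 := hasProd_prod (s := (Finset.univ : Finset (Fin m))) fun j _ => h1 j
    refine h2.congr_fun fun p => ?_
    rw [pow_sub (i := i) p.2 s, aeval_x h p.2, Finset.prod_inv_distrib]

end

end Pool.Agent.Q28.HW
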