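import Pool.Agent.Q28.HW.Hasse

/-!
# Hasse-Weil L-functions of GL(2) type: the completed function and the functional equation
-/

set_option autoImplicit false

namespace Pool.Agent.Q28.HW

open UpperHalfPlane hiding I
open MatrixGroups CongruenceSubgroup Filter Topology Complex
open Pool.Agent.Y671.GL
open Pool.Agent.Q28.AR (Core base_cpow prod_cpow)
open scoped ComplexConjugate

section

variable {i m : ℕ} {V : Cohomology i} {N k t : Fin m → ℕ} [hN : ∀ j, NeZero (N j)]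
  {ψ : (j : Fin m) → DirichletCharacter ℂ (N j)}
  {f : (j : Fin m) → CuspForm (Gamma1 (N j) : Subgroup (GL (Fin 2) ℝ)) (k j : ℤ)}

omit hN in
theorem prod_gamma (h : ModularType V N k t ψ f) (s : ℂ) :
    ∏ q ∈ Finset.range ((i + 1) / 2), Gammaℂ (s - q) ^ V.hodge q = ∏ j, Gammaℂ (s - t j) := by
  classical
  obtain ⟨r, hr⟩ := V.odd
  have hmaps : ∀ j ∈ (Finset.univ : Finset (Fin m)), t j ∈ Finset.range ((i + 1) / 2) := by
    intro j _
    have := h.twist j
    rw [Finset.mem_range]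
    omega
  rw [← Finset.prod_fiberwise_of_maps_to hmaps]
  refine Finset.prod_congr rfl fun q hq => ?_
  rw [Finset.mem_range] at hq
  rw [h.hodge q (by omega)]
  have : ∀ j ∈ Finset.univ.filter (fun j => t j = q), Gammaℂ (s - t j) = Gammaℂ (s - q) := by
    intro j hj
    rw [(Finset.mem_filter.1 hj).2]
  rw [Finset.prod_congr rfl this, Finset.prod_const]

/-- the constant -/
noncomputable def cst (i : ℕ) {m : ℕ} (N k : Fin m → ℕ) : ℂ := ∏ j, ((N j : ℂ) ^ ((i : ℂ) / 4) * κ₀ (k j))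

theorem cst_ne (i : ℕ) {m : ℕ} (N k : Fin m → ℕ) [hN : ∀ j, NeZero (N j)] : cst i N k ≠ 0 := by
  refine Finset.prod_ne_zero_iff.2 fun j _ => mul_ne_zero ?_ (κ₀_ne _)
  rw [Ne, Complex.cpow_eq_zero_iff]
  rintro ⟨h, -⟩
  exact (Nat.cast_ne_zero.2 (NeZero.ne (N j))) h

theorem comp_shift {j : Fin m} (hw : k j + 2 * t j = i + 1) (F : ℂ → ℂ) (s : ℂ) :
    (N j : ℂ) ^ ((i : ℂ) / 4) * κ₀ (k j) * comp (k j) (N j) F (s - (i : ℂ) / 2) =
      (N j : ℂ) ^ (s / 2) * Gammaℂ (s - t j) * F (s - (i : ℂ) / 2) := by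
  obtain ⟨z, hz⟩ : ∃ z : ℂ, z = s - (i : ℂ) / 2 := ⟨_, rfl⟩
  have hs : s = z + (i : ℂ) / 2 := by rw [hz]; ring
  have hw' : (k j : ℂ) + 2 * t j = i + 1 := by exact_mod_cast hw
  have h2piC : (2 * (Real.pi : ℂ)) ≠ 0 := mul_ne_zero two_ne_zero (by exact_mod_cast Real.pi_ne_zero)
  have hN0 : (N j : ℂ) ≠ 0 := Nat.cast_ne_zero.2 (NeZero.ne (N j))
  have e1 : s - t j = z + ((k j : ℂ) - 1) / 2 := by
    rw [hs]
    linear_combination (-1 / 2 : ℂ) * hw'
  have e2 : (2 * (Real.pi : ℂ)) ^ (-(z + ((k j : ℂ) - 1) / 2)) =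
      (2 * (Real.pi : ℂ)) ^ (-z) * (2 * (Real.pi : ℂ)) ^ (-(((k j : ℂ) - 1) / 2)) := by
    rw [← Complex.cpow_add _ _ h2piC]
    congr 1
    ring
  have e3 : (N j : ℂ) ^ (s / 2) = (N j : ℂ) ^ (z / 2) * (N j : ℂ) ^ ((i : ℂ) / 4) := by
    rw [← Complex.cpow_add _ _ hN0]
    congr 1
    rw [hs]
    ring
  rw [e1, Complex.Gammaℂ_def, e2, e3, ← hz]
  unfold comp κ₀
  rw [base_cpow (Nat.one_le_iff_ne_zero.2 (NeZero.ne (N j)))]
  ring

/-- the completed function in the half plane of convergence -/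
theorem comp_prod (h : ModularType V N k t ψ f) (F : Fin m → ℂ → ℂ) (s : ℂ) :
    cst i N k * ∏ j, comp (k j) (N j) (F j) (s - (i : ℂ) / 2) =
      ((∏ j, N j : ℕ) : ℂ) ^ (s / 2) * (∏ q ∈ Finset.range ((i + 1) / 2), Gammaℂ (s - q) ^ V.hodge q) *
        ∏ j, F j (s - (i : ℂ) / 2) := by
  rw [prod_gamma h, ← prod_cpow]
  unfold cst
  rw [← Finset.prod_mul_distrib, ← Finset.prod_mul_distrib, ← Finset.prod_mul_distrib]
  exact Finset.prod_congr rfl fun j _ => comp_shift (h.weight j) (F j) s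

omit hN in
/-- the L-function is real -/
theorem hw_conj {L : ℂ → ℂ} (hL : IsHasseWeil V L) {s : ℂ} (hs : 1 + (i : ℝ) / 2 < s.re) :
    L (conj s) = conj (L s) := by
  have h1 := hL.2 s hs
  have h2 := hL.2 (conj s) (by simpa using hs)
  have h3 := h1.map (starRingEnd ℂ : ℂ →+* ℂ) Complex.continuous_conj
  refine h2.unique (h3.congr_fun fun p => ?_)
  show _ = conj ((Polynomial.aeval (((p : ℕ) : ℂ) ^ (-s)) (V.P p))⁻¹)
  rw [map_inv₀]
  congr 1
  rw [Polynomial.aeval_def, Polynomial.aeval_def, Polynomial.hom_eval₂]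
  have e1 : conj (((p : ℕ) : ℂ) ^ (-s)) = ((p : ℕ) : ℂ) ^ (-conj s) := by
    have harg : (((p : ℕ) : ℂ)).arg ≠ Real.pi := by
      rw [Complex.natCast_arg]
      exact Real.pi_ne_zero.symm
    have := Complex.cpow_conj (((p : ℕ) : ℂ)) (-s) harg
    rw [map_neg] at this
    rw [this, Complex.conj_natCast]
  rw [e1]
  congr 1
  exact RingHom.ext_int _ _

/-- **everything for a Hasse-Weil L-function of GL(2) type** -/
theorem hasse (hm : 1 ≤ m) (h : ModularType V N k t ψ f) :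
    ∃ (L Λ Λ0 H X Z : ℂ → ℂ) (v c : ℂ), IsHasseWeil V L ∧ IsCompleted V (∏ j, N j) L Λ ∧ c ≠ 0 ∧
      (∀ s : ℂ, Λ s = c * Λ0 (s - (i : ℂ) / 2)) ∧
      (∃ ε : ℝ, (ε = 1 ∨ ε = -1) ∧ ∀ s : ℂ, Λ (i + 1 - s) = ε * Λ s) ∧
      Core m ((∏ j, N j : ℕ) : ℝ) Λ0 H X Z v := by
  classical
  have hk : ∀ j, 1 ≤ k j := fun j => by
    have := h.twist j
    have := h.weight j
    omega
  obtain ⟨F, Λ0, H, X, Z, v, hF, hΛ0, hc⟩ := core hm hk h.newform (split_of h)
  have hL := hw_of h hk hF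
  have hcne := cst_ne i N k
  obtain ⟨L, hLe⟩ : ∃ L : ℂ → ℂ, L = fun s => ∏ j, F j (s - (i : ℂ) / 2) := ⟨_, rfl⟩
  rw [← hLe] at hL
  obtain ⟨Λ, hΛ⟩ : ∃ Λ : ℂ → ℂ, Λ = fun s => cst i N k * Λ0 (s - (i : ℂ) / 2) := ⟨_, rfl⟩
  have hΛd : Differentiable ℂ Λ := by
    rw [hΛ]
    exact (hc.diff.comp (differentiable_id.sub_const _)).const_mul _
  have hcomp : IsCompleted V (∏ j, N j) L Λ := by
    refine ⟨hΛd, fun s hs => ?_⟩
    have hre : 1 < (s - (i : ℂ) / 2).re := by
      have : (s - (i : ℂ) / 2).re = s.re - (i : ℝ) / 2 := by simp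
      rw [this]
      linarith
    rw [hΛ, hLe]
    show cst i N k * Λ0 (s - (i : ℂ) / 2) = _
    rw [hΛ0 _ hre, comp_prod h F s]
  -- `Λ` is real
  have hreal : ∀ s : ℂ, Λ (conj s) = conj (Λ s) := by
    have h1 : (fun s => conj (Λ (conj s))) = Λ := by
      refine entire_uniq (fun z => ?_) hΛd (1 + (i : ℝ) / 2) fun s hs => ?_
      · have := (hΛd (conj z)).conj_conj
        rwa [Complex.conj_conj] at this
      · show conj (Λ (conj s)) = Λ s
        rw [hcomp.2 (conj s) (by simpa using hs), hcomp.2 s hs, hw_conj hL hs, map_mul, map_mul, Complex.conj_conj,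
          map_prod]
        congr 1
        congr 1
        · have harg : (((∏ j, N j : ℕ) : ℂ)).arg ≠ Real.pi := by
            rw [Complex.natCast_arg]
            exact Real.pi_ne_zero.symm
          have := Complex.cpow_conj (((∏ j, N j : ℕ) : ℂ)) (s / 2) harg
          rw [map_div₀, Complex.conj_ofNat, Complex.conj_natCast] at this
          rw [this, Complex.conj_conj]
        · refine Finset.prod_congr rfl fun q _ => ?_
          rw [map_pow]
          congr 1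
          have harg : (2 * (Real.pi : ℂ)).arg ≠ Real.pi := by
            have : (2 * (Real.pi : ℂ)) = ((2 * Real.pi : ℝ) : ℂ) := by push_cast; rfl
            rw [this, Complex.arg_ofReal_of_nonneg (by positivity)]
            exact Real.pi_ne_zero.symm
          rw [Complex.Gammaℂ_def, Complex.Gammaℂ_def, map_mul, map_mul, Complex.conj_ofNat, ← Complex.Gamma_conj,
            map_sub, Complex.conj_conj, Complex.conj_natCast]
          congr 2
          have := Complex.cpow_conj (2 * (Real.pi : ℂ)) (-(s - q)) harg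
          rw [map_mul, Complex.conj_ofNat, Complex.conj_ofReal, map_neg, map_sub, Complex.conj_natCast] at this
          rw [this, Complex.conj_conj]
    intro s
    have h2 := congrFun h1 s
    have h3 := congrArg conj h2
    rw [Complex.conj_conj] at h3
    exact h3
  -- the functional equation
  have hfe : ∃ w : ℂ, ∀ s : ℂ, Λ (i + 1 - s) = w * Λ s := by
    obtain ⟨w, hw, hfe⟩ := hc.fe
    refine ⟨w * (cst i N k / conj (cst i N k)), fun s => ?_⟩
    have hcc : conj (cst i N k) ≠ 0 := (map_ne_zero _).2 hcne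
    have h1 := hfe (s - (i : ℂ) / 2)
    have e1 : 1 - (s - (i : ℂ) / 2) = (i + 1 - s) - (i : ℂ) / 2 := by ring
    have e2 : conj (s - (i : ℂ) / 2) = conj s - (i : ℂ) / 2 := by
      rw [map_sub, map_div₀, Complex.conj_natCast, Complex.conj_ofNat]
    rw [e1, e2] at h1
    have h2 : Λ s = conj (cst i N k) * conj (Λ0 (conj s - (i : ℂ) / 2)) := by
      have h3 := hreal (conj s)
      rw [Complex.conj_conj] at h3
      rw [h3, hΛ, ← map_mul]
    rw [h2, hΛ]
    show cst i N k * Λ0 (i + 1 - s - (i : ℂ) / 2) = _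
    rw [h1]
    field_simp
  obtain ⟨w, hw⟩ := hfe
  have hne : ∃ s : ℂ, Λ s ≠ 0 := by
    refine ⟨3 / 2 + (i : ℂ) / 2, ?_⟩
    rw [hΛ]
    show cst i N k * Λ0 (3 / 2 + (i : ℂ) / 2 - (i : ℂ) / 2) ≠ 0
    rw [add_sub_cancel_right]
    refine mul_ne_zero hcne fun h0 => ?_
    have h1 := hc.strip 1 (by
      rw [hc.eq]
      have : (1 / 2 + 1 : ℂ) = 3 / 2 := by norm_num
      rw [this, h0, mul_zero])
    norm_num at h1
  have hww : w * w = 1 := by
    obtain ⟨s, hs⟩ := hne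
    have h1 := hw (i + 1 - s)
    have e : (i : ℂ) + 1 - (i + 1 - s) = s := by ring
    rw [e, hw s] at h1
    have h2 : (w * w - 1) * Λ s = 0 := by linear_combination -h1
    rcases mul_eq_zero.1 h2 with h3 | h3
    · linear_combination h3
    · exact absurd h3 hs
  refine ⟨L, Λ, Λ0, H, X, Z, v, cst i N k, hL, hcomp, hcne, fun s => by rw [hΛ], ?_, hc⟩
  rcases mul_self_eq_one_iff.1 hww with h1 | h1
  · exact ⟨1, Or.inl rfl, fun s => by rw [hw, h1]; simp⟩
  · exact ⟨-1, Or.inr rfl, fun s => by rw [hw, h1]; simp⟩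

end

end Pool.Agent.Q28.HW
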