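import Pool.Agent.Q28.HW.Form
import Pool.Agent.Q28.AR.Fam

/-!
# The completed L-functions of newforms of any weight

Adapted from `Pool.Agent.Q28.AR.Ld` (weight one).
-/

set_option autoImplicit false

namespace Pool.Agent.Q28.HW

open UpperHalfPlane hiding I
open MatrixGroups CongruenceSubgroup Filter Topology Complex
open Pool.Agent.Y671.GL
open Pool.Agent.W355.UN (Pk pk_raw nf_raw Eu2 cser)
open Pool.Agent.W355.LJ (IsNF)
open scoped ComplexConjugate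

variable {N k : ℕ} [NeZero N] {ψ : DirichletCharacter ℂ N}
  {f : CuspForm (Gamma1 N : Subgroup (GL (Fin 2) ℝ)) (k : ℤ)}

omit [NeZero N] in
theorem newfC (hk : 1 ≤ k) (hf : IsNewform N k ψ f) : ∃ η : ℂ, W388.IsNewfC N (k : ℤ) ψ f η := by
  obtain ⟨η, hη1, hfr⟩ := hf.fricke
  refine ⟨η, fun γ hγ τ => by rw [zpow_natCast]; exact hf.neb γ hγ τ, hf.one, hf.mul, fun p j hp => ?_, hf.5, hη1,
    fun τ τ' τc h1 h2 => by rw [zpow_natCast]; exact hfr τ τ' τc h1 h2⟩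
  have := hf.pow p j hp
  simp only [a] at this
  rw [this]
  have e : ((k : ℤ) - 1) = ((k - 1 : ℕ) : ℤ) := by omega
  rw [e, zpow_natCast]

omit [NeZero N] in
theorem lamC_eq (n : ℕ) : W388.lamC f n = lm f n := by
  unfold W388.lamC lm a
  rw [Real.rpow_neg (Nat.cast_nonneg n), Int.cast_natCast, Complex.ofReal_inv, div_eq_mul_inv]

theorem exists_L (hk : 1 ≤ k) (hf : IsNewform N k ψ f) (hs : Split ψ f) :
    ∃ F : ℂ → ℂ, W388.FE2 (k : ℤ) N 1 F ∧ IsL (lm f) F := by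
  obtain ⟨η, hη⟩ := newfC hk hf
  have hsum : ∀ (q : ℕ) [NeZero q] (χ : DirichletCharacter ℂ q) (s : ℂ), 1 < s.re →
      Summable (fun n : ℕ => ‖χ (n : ZMod q) * W388.lamC f n * (n : ℂ) ^ (-s)‖) := by
    intro q _ χ s hs1
    obtain ⟨-, -, -, h4⟩ := Pool.Agent.Y771.GL.mf k N _ _ (frm hk hf hs)
    refine (h4 s.re hs1).1.of_nonneg_of_le (fun n => norm_nonneg _) fun n => ?_
    rw [lamC_eq]
    rcases Nat.eq_zero_or_pos n with rfl | hn
    · rw [lm_zero]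
      simp
    · rw [norm_mul, norm_mul, Complex.norm_natCast_cpow_of_pos hn, neg_re]
      have h6 := χ.norm_le_one (n : ZMod q)
      have h8 : (0 : ℝ) ≤ (n : ℝ) ^ (-s.re) := by positivity
      have h9 := norm_nonneg (lm f n)
      calc ‖χ (n : ZMod q)‖ * ‖lm f n‖ * (n : ℝ) ^ (-s.re) ≤ 1 * ‖lm f n‖ * (n : ℝ) ^ (-s.re) := by gcongr
        _ = _ := by ring
  obtain ⟨F, hF, hs2⟩ := W388.exists_twistC Pool.Agent.W440.TC.t_twistC Pool.Agent.W108.TW.t_mellin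
    (k := (k : ℤ)) (by exact_mod_cast hk) hη hsum 1 1 DirichletCharacter.isPrimitive_one_level_one
    (Nat.coprime_one_left N)
  refine ⟨F, by simpa using hF, hF.diff, fun s hs => ?_⟩
  rw [hs2 s hs]
  refine tsum_congr fun n => ?_
  have h1 : (1 : DirichletCharacter ℂ 1) ((n : ℕ) : ZMod 1) = 1 := by
    apply MulChar.one_apply
    exact isUnit_of_subsingleton _
  rw [h1, one_mul, lamC_eq]

/-- the parameters of the gamma factor -/
noncomputable def gl (k : ℕ) : List ℂ := [(((((k : ℝ) - 1) / 2) : ℝ) : ℂ), (((((k : ℝ) + 1) / 2) : ℝ) : ℂ)]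

/-- the entire completed function -/
theorem raw_lm (hk : 1 ≤ k) (hf : IsNewform N k ψ f) (hs : Split ψ f) : ∃ (c : ℕ → ℂ) (X : ℂ → ℂ),
    Pool.Agent.W355.UN.RawL (gl k) 0 N (lm f) c X := by
  obtain ⟨η, hη1, hfr⟩ := hf.fricke
  have hnf : IsNF N k f (η / I ^ k) := by
    refine ⟨hf.one, by rw [norm_div, hη1]; simp, fun τ τ' τ'' h1 h2 => ?_⟩
    rw [hfr τ τ' τ'' h1 h2, div_pow]
    ring
  have hE : Eu2 fun n => (qExpansion 1 f).coeff n *
      ((((n : ℝ) ^ (-(((k : ℝ) - 1) / 2)) : ℝ)) : ℂ) := by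
    refine ⟨lm_one hf, lm_mul hf, fun p hp => ?_⟩
    obtain ⟨α, β, h1, h2, h3, h4⟩ := hs p hp
    refine ⟨α, β, h1, h2, h3, fun j => ?_⟩
    rw [← h4]
    exact lm_pow hk hf p j hp
  exact nf_raw f hk hnf hE

/-- the constant -/
noncomputable def κ₀ (k : ℕ) : ℂ := 2 * (2 * (Real.pi : ℂ)) ^ (-(((k : ℂ) - 1) / 2))

theorem κ₀_ne (k : ℕ) : κ₀ k ≠ 0 := by
  unfold κ₀
  refine mul_ne_zero two_ne_zero ?_
  rw [Ne, Complex.cpow_eq_zero_iff]
  rintro ⟨h, -⟩
  exact (mul_ne_zero two_ne_zero (by exact_mod_cast Real.pi_ne_zero)) h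

/-- the completed function off the poles of the Gamma factor -/
noncomputable def comp (k N : ℕ) (F : ℂ → ℂ) (s : ℂ) : ℂ :=
  ((Real.sqrt N / (2 * Real.pi) : ℝ) : ℂ) ^ s * Complex.Gamma (s + ((k : ℂ) - 1) / 2) * F s

/-- the completed series -/
theorem cser_eq (hk : 1 ≤ k) (hf : IsNewform N k ψ f) (hs : Split ψ f) {F : ℂ → ℂ} (hF : IsL (lm f) F) {s : ℂ}
    (hs1 : 1 < s.re) :
    cser 0 N (gl k) (lm f) s = κ₀ k * comp k N F s := by
  have hN0 : (0 : ℝ) < N := by exact_mod_cast Nat.pos_of_ne_zero (NeZero.ne N)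
  have hsN : 0 < Real.sqrt N := Real.sqrt_pos.2 hN0
  have hpi := Real.pi_pos
  have h2pi0 : (0 : ℝ) < 2 * Real.pi := by positivity
  have h2piC : (2 * (Real.pi : ℂ)) ≠ 0 := mul_ne_zero two_ne_zero (by exact_mod_cast Real.pi_ne_zero)
  unfold cser gl comp κ₀
  rw [← ser_eq (frm hk hf hs) hF hs1]
  simp only [List.map_cons, List.map_nil, List.prod_cons, List.prod_nil, mul_one, pow_zero, one_mul]
  obtain ⟨s', hs'⟩ : ∃ s' : ℂ, s' = s + ((k : ℂ) - 1) / 2 := ⟨_, rfl⟩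
  have h0 := Complex.Gammaℝ_mul_Gammaℝ_add_one s'
  rw [Complex.Gammaℂ_def] at h0
  have ea : s + (((((k : ℝ) - 1) / 2 : ℝ)) : ℂ) = s' := by rw [hs']; push_cast; ring
  have eb : s + (((((k : ℝ) + 1) / 2 : ℝ)) : ℂ) = s' + 1 := by rw [hs']; push_cast; ring
  rw [ea, eb, h0, ← hs']
  have e1 := Pool.Agent.Q28.AR.base_cpow (N := N) (Nat.one_le_iff_ne_zero.2 (NeZero.ne N)) s
  have e2 : (2 * (Real.pi : ℂ)) ^ (-s') = (2 * (Real.pi : ℂ)) ^ (-s) * (2 * (Real.pi : ℂ)) ^ (-(((k : ℂ) - 1) / 2)) := by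
    rw [← Complex.cpow_add _ _ h2piC]
    congr 1
    rw [hs']
    ring
  rw [e1, e2]
  push_cast
  ring

/-- **the data of the completed L-function** -/
theorem ldata (hk : 1 ≤ k) (hf : IsNewform N k ψ f) (hs : Split ψ f) {F : ℂ → ℂ} (hFE : W388.FE2 (k : ℤ) N 1 F)
    (hF : IsL (lm f) F) :
    ∃ (c : ℝ) (u v : ℂ) (X X0 : ℂ → ℂ), LData k c u X F ∧ v ≠ 0 ∧
      (∀ z : ℂ, (1 / 2 < z.re ∨ z.im ≠ 0) → X z = v * comp k N F (1 / 2 + z)) ∧
      (∃ cc : ℕ → ℂ, Pool.Agent.W355.UN.RawL (gl k) 0 N (lm f) cc X0) ∧ ∀ z : ℂ, X z = v / κ₀ k * X0 (1 / 2 + z) := by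
  have hfrm := frm hk hf hs
  have hκ0 := κ₀_ne k
  have hk0 : (1 : ℝ) ≤ k := by exact_mod_cast hk
  have hN0 : (0 : ℝ) < N := by exact_mod_cast Nat.pos_of_ne_zero (NeZero.ne N)
  have hN1 : (1 : ℝ) ≤ N := by exact_mod_cast Nat.one_le_iff_ne_zero.2 (NeZero.ne N)
  have hsN : 0 < Real.sqrt N := Real.sqrt_pos.2 hN0
  have hpi0 := Real.pi_pos
  -- the entire completed function
  obtain ⟨cc, X0, hraw⟩ := raw_lm hk hf hs
  have hpk := pk_raw hraw
  have hd := hpk.diff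
  obtain ⟨w', hw', hfe⟩ := hpk.fe
  obtain ⟨μ, L, ul, ec, σ0, hσ0⟩ := hpk
  have hX0 : ∀ s : ℂ, max σ0 2 ≤ s.re → X0 s = κ₀ k * comp k N F s := by
    intro s hs'
    rw [hσ0 s ((le_max_left _ _).trans hs')]
    exact cser_eq hk hf hs hF (by linarith [(le_max_right σ0 2).trans hs'])
  -- the constant
  obtain ⟨c0, hc0⟩ : ∃ c0 : ℂ, c0 ^ 2 = conj w' := IsAlgClosed.exists_pow_nat_eq _ (by norm_num)
  have hc0n : ‖c0‖ = 1 := by
    have h1 := congrArg norm hc0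
    rw [norm_pow, Complex.norm_conj, hw'] at h1
    nlinarith [norm_nonneg c0]
  have hc00 : c0 ≠ 0 := by
    intro h; rw [h, norm_zero] at hc0n; exact zero_ne_one hc0n
  have hc0w : c0 * w' = conj c0 := by
    apply mul_left_cancel₀ hc00
    have h1 : conj w' * w' = 1 := by
      rw [mul_comm, Complex.mul_conj, Complex.normSq_eq_norm_sq, hw']
      simp
    have h2 : c0 * conj c0 = 1 := by
      rw [Complex.mul_conj, Complex.normSq_eq_norm_sq, hc0n]
      simp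
    rw [h2, ← mul_assoc, ← sq, hc0, h1]
  obtain ⟨c, hc⟩ : ∃ c : ℝ, c = Real.sqrt N / (2 * Real.pi) := ⟨_, rfl⟩
  have hcp : 0 < c := by rw [hc]; positivity
  have hcc : (c : ℂ) ≠ 0 := by exact_mod_cast hcp.ne'
  obtain ⟨X, hX⟩ : ∃ X : ℂ → ℂ, X = fun z => c0 * X0 (1 / 2 + z) := ⟨_, rfl⟩
  have hXd : Differentiable ℂ X := by
    rw [hX]
    exact (hd.comp (differentiable_id.const_add _)).const_mul _
  obtain ⟨u, hu⟩ : ∃ u : ℂ, u = κ₀ k * c0 * (c : ℂ) ^ (1 / 2 : ℂ) := ⟨_, rfl⟩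
  have hch : (c : ℂ) ^ (1 / 2 : ℂ) ≠ 0 := by
    rw [Ne, Complex.cpow_eq_zero_iff]
    exact fun h => hcc h.1
  have hu0 : u ≠ 0 := by rw [hu]; exact mul_ne_zero (mul_ne_zero hκ0 hc00) hch
  have hcomp : ∀ z : ℂ, κ₀ k * c0 * comp k N F (1 / 2 + z) = u * Hg c ((k : ℝ) / 2) z * F (1 / 2 + z) := by
    intro z
    unfold comp Hg
    rw [hu, ← hc, Complex.cpow_add _ _ hcc]
    have e1 : z + ((((k : ℝ) / 2 : ℝ))) = 1 / 2 + z + ((k : ℂ) - 1) / 2 := by push_cast; ring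
    rw [e1]
    ring
  -- large real part
  have hbig : ∀ z : ℂ, max σ0 2 ≤ z.re → X z = u * Hg c ((k : ℝ) / 2) z * F (1 / 2 + z) := by
    intro z hz
    have hre : (1 / 2 + z : ℂ).re = 1 / 2 + z.re := by simp
    have e1 : X z = c0 * X0 (1 / 2 + z) := by rw [hX]
    rw [e1, hX0 _ (by rw [hre]; linarith), ← hcomp]
    ring
  -- the identity on the slit plane
  obtain ⟨U, hU⟩ : ∃ U : Set ℂ, U = {z : ℂ | 1 / 2 < z.re ∨ z.im ≠ 0} := ⟨_, rfl⟩
  have hUs : U = (fun z : ℂ => z - 1 / 2) ⁻¹' Complex.slitPlane := by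
    rw [hU]
    ext z
    rw [Set.mem_preimage, Complex.mem_slitPlane_iff]
    simp only [Set.mem_ofPred_eq, Complex.sub_re, Complex.sub_im]
    norm_num
  have hUo : IsOpen U := by
    rw [hUs]
    exact Complex.isOpen_slitPlane.preimage (by fun_prop)
  have hUc : IsPreconnected U := by
    have h1 : U = (fun z : ℂ => z + 1 / 2) '' Complex.slitPlane := by
      rw [hUs]
      ext z
      constructor
      · intro h
        exact ⟨z - 1 / 2, h, by ring⟩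
      · rintro ⟨y, hy, rfl⟩
        show y + 1 / 2 - 1 / 2 ∈ Complex.slitPlane
        rwa [add_sub_cancel_right]
    rw [h1]
    refine IsPreconnected.image ?_ _ (by fun_prop)
    exact (Complex.starConvex_one_slitPlane.isPathConnected Complex.one_mem_slitPlane).isConnected.isPreconnected
  have hG : ∀ z : ℂ, (1 / 2 < z.re ∨ z.im ≠ 0) → DifferentiableAt ℂ (Hg c ((k : ℝ) / 2)) z := by
    intro z hz
    unfold Hg
    refine DifferentiableAt.mul ?_ ?_
    · exact DifferentiableAt.const_cpow differentiableAt_id (Or.inl hcc)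
    · refine DifferentiableAt.comp z (f := fun z : ℂ => z + (((k : ℝ) / 2 : ℝ) : ℂ))
        (Complex.differentiableAt_Gamma _ ?_) (by fun_prop)
      intro m hm
      rcases hz with hz | hz
      · have := congrArg Complex.re hm
        rw [Complex.add_re, Complex.ofReal_re, Complex.neg_re, Complex.natCast_re] at this
        have hm0 : (0 : ℝ) ≤ m := Nat.cast_nonneg m
        linarith
      · have := congrArg Complex.im hm
        rw [Complex.add_im, Complex.ofReal_im, Complex.neg_im, Complex.natCast_im, add_zero, neg_zero] at this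
        exact hz this
  have hA1 : DifferentiableOn ℂ X U := hXd.differentiableOn
  have hA2 : DifferentiableOn ℂ (fun z : ℂ => u * Hg c ((k : ℝ) / 2) z * F (1 / 2 + z)) U := by
    intro z hz
    rw [hU] at hz
    refine DifferentiableAt.differentiableWithinAt ?_
    exact ((hG z hz).const_mul u).mul (DifferentiableAt.comp z (f := fun z : ℂ => 1 / 2 + z) (hF.diff _) (by fun_prop))
  obtain ⟨z0, hz0⟩ : ∃ z0 : ℂ, z0 = ((max σ0 2 + 1 : ℝ) : ℂ) := ⟨_, rfl⟩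
  have hz0re : z0.re = max σ0 2 + 1 := by rw [hz0, Complex.ofReal_re]
  have hz0U : z0 ∈ U := by
    rw [hU]
    left
    rw [hz0re]
    linarith [le_max_right σ0 2]
  have hev : X =ᶠ[𝓝 z0] fun z : ℂ => u * Hg c ((k : ℝ) / 2) z * F (1 / 2 + z) := by
    have h3 : ∀ᶠ z : ℂ in 𝓝 z0, max σ0 2 < z.re :=
      (Complex.continuous_re.tendsto _).eventually (lt_mem_nhds (by rw [hz0re]; linarith))
    filter_upwards [h3] with z hz
    exact hbig z hz.le
  have hEq := (hA1.analyticOnNhd hUo).eqOn_of_preconnected_of_eventuallyEq (hA2.analyticOnNhd hUo) hUc hz0U hev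
  have heq : ∀ z : ℂ, (1 / 2 < z.re ∨ z.im ≠ 0) → X z = u * Hg c ((k : ℝ) / 2) z * F (1 / 2 + z) := by
    intro z hz
    exact hEq (by rw [hU]; exact hz)
  -- bounds
  obtain ⟨-, -, -, h4⟩ := Pool.Agent.Y771.GL.mf k N _ _ hfrm
  obtain ⟨B0, hB0⟩ : ∃ B0 : ℝ, B0 = ∑' n : ℕ, ‖lm f n‖ * (n : ℝ) ^ (-(3 / 2 : ℝ)) := ⟨_, rfl⟩
  have hFB : ∀ s : ℂ, 3 / 2 ≤ s.re → ‖F s‖ ≤ max 1 B0 := by
    intro s hs
    rw [ser_eq hfrm hF (by linarith)]
    refine le_trans ?_ (le_max_right _ _)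
    rw [hB0]
    exact (sum_of (h4 (3 / 2) (by norm_num)).1 hs).2
  refine ⟨c, u, κ₀ k * c0, X, X0, ⟨hcp, hu0, hXd, ?_, ?_, ?_, ?_⟩, mul_ne_zero hκ0 hc00, ?_, ⟨cc, hraw⟩, ?_⟩
  · -- symmetry
    intro z
    have e1 : X (-(conj z)) = c0 * X0 (1 - (1 / 2 + conj z)) := by
      rw [hX]
      show c0 * X0 (1 / 2 + -(conj z)) = _
      congr 2
      ring
    have e2 : conj (1 / 2 + conj z) = 1 / 2 + z := by
      rw [map_add, Complex.conj_conj, map_div₀, map_one]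
      have : conj (2 : ℂ) = 2 := Complex.conj_ofNat 2
      rw [this]
    rw [e1, hfe, e2, ← mul_assoc, hc0w, ← map_mul]
    rw [hX]
  · intro z hz
    refine heq z ?_
    rcases hz with hz | hz
    · exact Or.inr hz.ne'
    · exact Or.inl hz
  · -- vertical strips
    intro a b
    obtain ⟨C1, hC1⟩ := hFE.vert (a + 1 / 2) (b + 1 / 2)
    have hK : IsCompact (Set.Icc a b ×ℂ Set.Icc (-1 : ℝ) 1) := isCompact_Icc.reProdIm isCompact_Icc
    obtain ⟨C2, hC2⟩ := hK.exists_bound_of_continuousOn (f := X) hXd.continuous.continuousOn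
    refine ⟨max (‖u‖ * ‖(c : ℂ) ^ (-(1 / 2) : ℂ)‖ * C1) C2, fun z hz1 hz2 => ?_⟩
    rcases le_or_gt 1 |z.im| with h1 | h1
    · refine le_trans ?_ (le_max_left _ _)
      have him : z.im ≠ 0 := by
        intro h0; rw [h0, abs_zero] at h1; linarith
      rw [heq z (Or.inr him)]
      have h5 := hC1 (1 / 2 + z) (by simp; linarith) (by simp; linarith) (by simpa using h1)
      have h6 : Hg c ((k : ℝ) / 2) z = (c : ℂ) ^ (-(1 / 2) : ℂ) * W388.GG (k : ℤ) N 1 (1 / 2 + z) := by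
        unfold Hg W388.GG
        rw [mul_one, ← hc, ← mul_assoc, ← Complex.cpow_add _ _ hcc]
        congr 1
        · congr 1; ring
        · congr 1
          push_cast
          ring
      rw [h6]
      calc ‖u * ((c : ℂ) ^ (-(1 / 2) : ℂ) * W388.GG (k : ℤ) N 1 (1 / 2 + z)) * F (1 / 2 + z)‖
          = ‖u‖ * ‖(c : ℂ) ^ (-(1 / 2) : ℂ)‖ * ‖W388.GG (k : ℤ) N 1 (1 / 2 + z) * F (1 / 2 + z)‖ := by
            rw [norm_mul, norm_mul, norm_mul, norm_mul]; ring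
        _ ≤ _ := by gcongr
    · refine le_trans (hC2 z ?_) (le_max_right _ _)
      rw [Complex.mem_reProdIm]
      have := abs_lt.1 h1
      exact ⟨⟨hz1, hz2⟩, ⟨this.1.le, this.2.le⟩⟩
  · -- growth
    obtain ⟨A, hA⟩ : ∃ A : ℝ, A = 2 + 2 * (max 1 B0 * N) * (((((k : ℤ) : ℝ) - 1) / 2) + 6) ^ 2 := ⟨_, rfl⟩
    refine ⟨A, fun s h1 h3 => ?_⟩
    have h5 := Pool.Agent.W820.TW.F_growth (k := (k : ℤ)) (N := N) (Q := 1) (B := max 1 B0) (by exact_mod_cast hk)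
      hN1 le_rfl (le_max_left _ _) hFE hFB (A := A) (le_of_eq hA.symm) s h1 h3
    rwa [one_mul] at h5
  · intro z hz
    rw [heq z hz, ← hcomp]
  · intro z
    rw [hX]
    field_simp

end Pool.Agent.Q28.HW
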