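import Pool.Agent.Q28.HW.HasseC

/-!
# The zeros of `c Λ(s - a)`
-/

set_option autoImplicit false

namespace Pool.Agent.Q28.HW

open Filter Topology Complex
open Pool.Agent.Q28.AR (Core OffL)
open Pool.Agent.W169.HF (heat)
open scoped ComplexConjugate

/-- the number of points of `B`, each counted with its multiplicity as a zero of `g` -/
noncomputable def num (g : ℂ → ℂ) (B : Set ℂ) : ℕ := ∑ᶠ s ∈ B, analyticOrderNatAt g s

theorem ord_shift (g : ℂ → ℂ) {c : ℂ} (hc : c ≠ 0) (a z : ℂ) :
    analyticOrderNatAt (fun s => c * g (s - a)) (z + a) = analyticOrderNatAt g z := by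
  unfold analyticOrderNatAt
  congr 1
  have h1 : analyticOrderAt (fun s => g (s - a)) (z + a) = analyticOrderAt g z := by
    have := analyticOrderAt_comp_of_deriv_ne_zero (f := g) (g := fun w : ℂ => w - a) (z₀ := z + a) (by fun_prop) (by
      rw [deriv_sub_const]
      simp)
    simpa [Function.comp_def] using this
  rw [← h1]
  by_cases hg : AnalyticAt ℂ (fun s => g (s - a)) (z + a)
  · have h2 : analyticOrderAt (fun s => c * g (s - a)) (z + a) = analyticOrderAt (fun _ : ℂ => c) (z + a) +
        analyticOrderAt (fun s => g (s - a)) (z + a) :=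
      analyticOrderAt_mul (f := fun _ : ℂ => c) (g := fun s => g (s - a)) analyticAt_const hg
    rw [h2, (analyticAt_const.analyticOrderAt_eq_zero).2 hc, zero_add]
  · have h3 : ¬ AnalyticAt ℂ (fun s => c * g (s - a)) (z + a) := by
      intro h3
      apply hg
      have h4 : AnalyticAt ℂ (fun s => c⁻¹ * (c * g (s - a))) (z + a) := analyticAt_const.mul h3
      refine h4.congr (Filter.Eventually.of_forall fun s => ?_)
      show c⁻¹ * (c * g (s - a)) = g (s - a)
      rw [← mul_assoc, inv_mul_cancel₀ hc, one_mul]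
    rw [analyticOrderAt_of_not_analyticAt hg, analyticOrderAt_of_not_analyticAt h3]

theorem num_shift (g : ℂ → ℂ) {c : ℂ} (hc : c ≠ 0) (a : ℂ) (B : Set ℂ) :
    num (fun s => c * g (s - a)) ((fun z => z + a) '' B) = num g B := by
  unfold num
  symm
  refine finsum_mem_eq_of_bijOn (fun z : ℂ => z + a) ⟨?_, ?_, ?_⟩ fun z _ => (ord_shift g hc a z).symm
  · intro z hz
    exact ⟨z, hz, rfl⟩
  · intro x _ y _ hxy
    exact add_left_injective a hxy
  · exact Set.surjOn_image _ _

/-- a set is a translate -/
theorem image_eq {a : ℂ} {A B : Set ℂ} (h : ∀ s, s ∈ A ↔ s - a ∈ B) : A = (fun z => z + a) '' B := by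
  ext s
  rw [h]
  constructor
  · intro hs
    exact ⟨s - a, hs, by simp⟩
  · rintro ⟨z, hz, rfl⟩
    simpa using hz

theorem iter_shift {g : ℂ → ℂ} (hg : Differentiable ℂ g) (c a : ℂ) (n : ℕ) :
    iteratedDeriv n (fun s => c * g (s - a)) = fun s => c * iteratedDeriv n g (s - a) := by
  funext s
  have hd : ContDiff ℂ n g := hg.contDiff
  have h1 : iteratedDeriv n (fun s => c * g (s - a)) s = c * iteratedDeriv n (fun s => g (s - a)) s :=
    iteratedDeriv_const_mul c (hd.comp (contDiff_id.sub contDiff_const)).contDiffAt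
  rw [h1, iteratedDeriv_comp_sub_const]

theorem heat_shift (g : ℂ → ℂ) (c a : ℂ) (t : ℝ) : heat t (fun s => c * g (s - a)) = fun s => c * heat t g (s - a) := by
  funext s
  unfold heat
  rw [mul_left_comm, ← MeasureTheory.integral_const_mul c]
  congr 1
  refine MeasureTheory.integral_congr_ae (Filter.Eventually.of_forall fun y => ?_)
  show _ * (c * g _) = c * (_ * g _)
  have e : s + ((2 * Real.sqrt t * y : ℝ) : ℂ) - a = s - a + ((2 * Real.sqrt t * y : ℝ) : ℂ) := by ring
  rw [e]
  ring

end Pool.Agent.Q28.HW
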